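import Pool.Agent.Y472.C.Defs

/-!
# CB3-MAIN3, part 1: properties of the traces and of the weight
-/

set_option autoImplicit false

namespace Pool.Agent.Y833.CB

open Finset Filter Topology Metric
open Pool.Agent.W711.HT Pool.Agent.Y472
open scoped Real

lemma prod_diff {n : Type} [Fintype n] [DecidableEq n] {ι : Type} (l : List ι)
    (A : ι → ℂ → Matrix n n ℂ) (h : ∀ q i j, Differentiable ℂ (fun χ => A q χ i j)) :
    ∀ i j, Differentiable ℂ fun χ => (l.map fun q => A q χ).prod i j := by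
  induction l with
  | nil => intro i j; simp
  | cons q l ih =>
    intro i j
    have : (fun χ => ((q :: l).map fun q => A q χ).prod i j) =
        fun χ => ∑ k, A q χ i k * (l.map fun q => A q χ).prod k j := by
      funext χ
      rw [List.map_cons, List.prod_cons, Matrix.mul_apply]
    rw [this]
    exact Differentiable.fun_sum fun k _ => (h q i k).mul (ih k j)

lemma trace_diff {n : Type} [Fintype n] [DecidableEq n] {ι : Type} (l : List ι)
    (A : ι → ℂ → Matrix n n ℂ) (h : ∀ q i j, Differentiable ℂ (fun χ => A q χ i j)) :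
    Differentiable ℂ fun χ => ((l.map fun q => A q χ).prod).trace := by
  unfold Matrix.trace
  exact Differentiable.fun_sum fun k _ => prod_diff l A h k k

lemma MB0_diff (N : ℕ) (b : ℤ) (i j : Fin N) : Differentiable ℂ fun χ => MB0 N χ b i j := by
  unfold MB0
  split_ifs
  · refine Differentiable.mul ?_ (differentiable_const _)
    refine Differentiable.fun_finsetProd fun t _ => ?_
    unfold Ph
    exact (differentiable_const _).mul
      (((differentiable_const _).mul Complex.differentiable_cos).sub (differentiable_const _))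
  · exact differentiable_const _

lemma mul_MB0_diff (N : ℕ) (M : Matrix (Fin N) (Fin N) ℂ) (b : ℤ) (i j : Fin N) :
    Differentiable ℂ fun χ => (M * MB0 N χ b) i j := by
  have : (fun χ => (M * MB0 N χ b) i j) = fun χ => ∑ k, M i k * MB0 N χ b k j := by
    funext χ
    rw [Matrix.mul_apply]
  rw [this]
  exact Differentiable.fun_sum fun k _ => (differentiable_const _).mul (MB0_diff N b k j)

lemma Tf_diff (N : ℕ) (ls : List (ℤ × ℤ)) : Differentiable ℂ (Tf N ls) :=
  trace_diff ls (fun q χ => MA0 N q.1 * MB0 N χ q.2) fun q i j => mul_MB0_diff N _ _ i j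

lemma Tm_diff (N : ℕ) (ls : List (ℤ × ℤ)) : Differentiable ℂ (Tm N ls) :=
  trace_diff ls (fun q χ => Matrix.diagonal (fun i : Fin N => if N - 1 - (N - 1) / 2 ≤ (i : ℕ) then (1 : ℂ) else 0) *
    MA0 N q.1 * Matrix.diagonal (fun i : Fin N => if (i : ℕ) ≤ (N - 1) / 2 then (1 : ℂ) else 0) *
    MB0 N χ q.2) fun q i j => mul_MB0_diff N _ _ i j

lemma MB0_congr (N : ℕ) {χ χ' : ℂ} (h : Complex.cos χ = Complex.cos χ') (b : ℤ) :
    MB0 N χ b = MB0 N χ' b := by
  unfold MB0 Ph
  rw [h]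

lemma Tf_congr (N : ℕ) (ls : List (ℤ × ℤ)) {χ χ' : ℂ} (h : Complex.cos χ = Complex.cos χ') :
    Tf N ls χ = Tf N ls χ' := by
  unfold Tf
  simp only [MB0_congr N h]

lemma Tm_congr (N : ℕ) (ls : List (ℤ × ℤ)) {χ χ' : ℂ} (h : Complex.cos χ = Complex.cos χ') :
    Tm N ls χ = Tm N ls χ' := by
  unfold Tm
  simp only [MB0_congr N h]

lemma wE_diff (N : ℕ) (m : ℤ) : Differentiable ℂ (wE N m) := by
  unfold wE Ea
  fun_prop

lemma exp_int (k : ℤ) : Complex.exp (2 * π * Complex.I * k) = 1 := by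
  rw [show (2 * π * Complex.I * k : ℂ) = k * (2 * π * Complex.I) by ring]
  exact Complex.exp_int_mul_two_pi_mul_I k

lemma wE_add (N : ℕ) (m : ℤ) (χ : ℂ) :
    wE N m (χ + 2 * π) = wE N m χ * Complex.exp (2 * Complex.I * m * N * χ) := by
  have hπ : (π : ℂ) ≠ 0 := by exact_mod_cast Real.pi_ne_zero
  unfold wE Ea
  rw [Complex.sin_add_two_pi, mul_assoc (Complex.sin χ), ← Complex.exp_add]
  have h1 : Complex.I * ((2 * m : ℤ) : ℂ) * N * (χ + 2 * π) ^ 2 / (4 * π) =
      (Complex.I * ((2 * m : ℤ) : ℂ) * N * χ ^ 2 / (4 * π) + 2 * Complex.I * m * N * χ) +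
        2 * π * Complex.I * ((m * N : ℤ) : ℂ) := by
    push_cast
    field_simp
    ring
  rw [h1, Complex.exp_add, exp_int, mul_one]

lemma F_add (N : ℕ) (ls : List (ℤ × ℤ)) (m : ℤ) (χ : ℂ) :
    wE N m (χ + 2 * π) * Tf N ls (χ + 2 * π) =
      wE N m χ * Tf N ls χ * Complex.exp (2 * Complex.I * m * N * χ) := by
  rw [wE_add, Tf_congr N ls (Complex.cos_add_two_pi χ)]
  ring

lemma F_deriv (N : ℕ) (hN : 0 < N) (ls : List (ℤ × ℤ)) (m : ℤ) (q : ℤ) :
    deriv (fun χ => wE N m χ * Tf N ls χ) (2 * π * q / N + 2 * π) =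
      deriv (fun χ => wE N m χ * Tf N ls χ) (2 * π * q / N) +
      2 * Complex.I * m * N * (wE N m (2 * π * q / N + 2 * π) * Tf N ls (2 * π * q / N + 2 * π)) := by
  have hN' : (N : ℂ) ≠ 0 := by exact_mod_cast hN.ne'
  have he : Complex.exp (2 * Complex.I * m * N * (2 * π * q / N)) = 1 := by
    rw [show (2 * Complex.I * m * N * (2 * π * q / N) : ℂ) =
      2 * π * Complex.I * ((2 * m * q : ℤ) : ℂ) by push_cast; field_simp]
    exact exp_int _
  rw [← deriv_comp_add_const (f := fun χ => wE N m χ * Tf N ls χ) (a := (2 * π : ℂ))]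
  have h1 : (fun χ : ℂ => wE N m (χ + 2 * π) * Tf N ls (χ + 2 * π)) =
      fun χ => wE N m χ * Tf N ls χ * Complex.exp (2 * Complex.I * m * N * χ) := by
    funext χ
    exact F_add N ls m χ
  rw [h1, F_add, he, mul_one]
  have hd : DifferentiableAt ℂ (fun χ => wE N m χ * Tf N ls χ) (2 * π * q / N) :=
    ((wE_diff N m).mul (Tf_diff N ls)) _
  have hd2 : HasDerivAt (fun χ : ℂ => Complex.exp (2 * Complex.I * m * N * χ))
      (Complex.exp (2 * Complex.I * m * N * (2 * π * q / N)) * (2 * Complex.I * m * N * 1))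
      (2 * π * q / N) :=
    ((hasDerivAt_id _).const_mul _).cexp
  have h3 := (hd.hasDerivAt.mul hd2).deriv
  have h4 : ((fun χ => wE N m χ * Tf N ls χ) * fun χ : ℂ => Complex.exp (2 * Complex.I * m * N * χ)) =
      fun χ => wE N m χ * Tf N ls χ * Complex.exp (2 * Complex.I * m * N * χ) := rfl
  rw [h4, he] at h3
  rw [h3]
  ring

lemma cauchy {f : ℂ → ℂ} (hf : Differentiable ℂ f) (c : ℂ) {r B : ℝ} (hr : 0 < r)
    (h : ∀ w, ‖w - c‖ = r → ‖f w‖ ≤ B) : ‖deriv f c‖ ≤ B / r := by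
  refine Complex.norm_deriv_le_of_forall_mem_sphere_norm_le hr hf.diffContOnCl fun z hz => h z ?_
  rwa [mem_sphere_iff_norm] at hz

lemma norm_sin_le' (w : ℂ) : ‖Complex.sin w‖ ≤ Real.exp |w.im| := by
  have h1 : ‖Complex.exp (-w * Complex.I)‖ = Real.exp w.im := by
    rw [Complex.norm_exp]; simp
  have h2 : ‖Complex.exp (w * Complex.I)‖ = Real.exp (-w.im) := by
    rw [Complex.norm_exp]; simp
  unfold Complex.sin
  rw [norm_div, norm_mul, Complex.norm_I, mul_one]
  have h3 : ‖(2 : ℂ)‖ = 2 := by simp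
  rw [h3]
  have h4 := norm_sub_le (Complex.exp (-w * Complex.I)) (Complex.exp (w * Complex.I))
  have h5 : Real.exp w.im ≤ Real.exp |w.im| := Real.exp_le_exp.2 (le_abs_self _)
  have h6 : Real.exp (-w.im) ≤ Real.exp |w.im| := Real.exp_le_exp.2 (neg_le_abs _)
  rw [h1, h2] at h4
  linarith

lemma wE_bd (N : ℕ) (hN : 1 ≤ N) (m : ℤ) (w : ℂ) (h1 : |w.re| ≤ 2 * π) (h2 : |w.im| ≤ 1 / N) :
    ‖wE N m w‖ ≤ Real.exp (1 + 2 * |(m : ℝ)|) := by
  have hN' : (0 : ℝ) < N := by exact_mod_cast hN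
  have hN1 : (1 : ℝ) ≤ N := by exact_mod_cast hN
  have hπ := Real.pi_pos
  unfold wE Ea
  rw [norm_mul, Complex.norm_exp, Real.exp_add]
  have h3 : ‖Complex.sin w‖ ≤ Real.exp 1 := by
    refine (norm_sin_le' w).trans (Real.exp_le_exp.2 (h2.trans ?_))
    rw [div_le_one hN']
    exact hN1
  have h4 : (Complex.I * ((2 * m : ℤ) : ℂ) * N * w ^ 2 / (4 * π)).re =
      -(m * N * (w.re * w.im) / π) := by
    have : (Complex.I * ((2 * m : ℤ) : ℂ) * N * w ^ 2 / (4 * π)) =
        (((m : ℝ) * N / (2 * π) : ℝ) : ℂ) * (Complex.I * w ^ 2) := by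
      have hπ' : (π : ℂ) ≠ 0 := by exact_mod_cast Real.pi_ne_zero
      push_cast
      field_simp
      ring
    rw [this, Complex.re_ofReal_mul]
    have : (Complex.I * w ^ 2).re = -(2 * (w.re * w.im)) := by
      rw [sq]; simp [Complex.mul_re, Complex.mul_im]; ring
    rw [this]
    field_simp
  rw [h4]
  have h5 : -(m * N * (w.re * w.im) / π) ≤ 2 * |(m : ℝ)| := by
    have e1 : -(m * N * (w.re * w.im) / π) ≤ |(m : ℝ)| * N * (|w.re| * |w.im|) / π := by
      rw [← neg_div]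
      refine div_le_div_of_nonneg_right ?_ hπ.le
      have := neg_abs_le ((m : ℝ) * N * (w.re * w.im))
      rw [abs_mul, abs_mul, abs_mul, Nat.abs_cast] at this
      linarith
    have e2 : |(m : ℝ)| * N * (|w.re| * |w.im|) / π ≤ |(m : ℝ)| * N * (2 * π * (1 / N)) / π := by
      gcongr
    have e3 : |(m : ℝ)| * N * (2 * π * (1 / N)) / π = 2 * |(m : ℝ)| := by
      field_simp
    linarith
  exact mul_le_mul h3 (Real.exp_le_exp.2 h5) (Real.exp_pos _).le (Real.exp_pos _).le

end Pool.Agent.Y833.CB
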