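import Pool.Agent.Y833.CB.Dec

/-!
# Job CB3: DDS
-/

set_option autoImplicit false

namespace Pool.Agent.Y833.CB

open Pool.Agent.Y472 Finset

theorem prod_prim {N : ℕ} {z : ℂ} (hz : IsPrimitiveRoot z N) (hN : 0 < N) (x : ℂ) :
    ∏ t ∈ range N, (x - z ^ t) = x ^ N - 1 := by
  classical
  have h1 : (range N).image (fun t => z ^ t) = Polynomial.nthRootsFinset N (1 : ℂ) := by
    apply Finset.eq_of_subset_of_card_le
    · intro y hy
      obtain ⟨t, _, rfl⟩ := mem_image.mp hy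
      rw [Polynomial.mem_nthRootsFinset hN, ← pow_mul, mul_comm, pow_mul, hz.pow_eq_one, one_pow]
    · rw [hz.card_nthRootsFinset, card_image_of_injOn, card_range]
      intro a ha b hb hab
      exact hz.pow_inj (mem_range.mp ha) (mem_range.mp hb) hab
  have h2 := hz.pow_sub_pow_eq_prod_sub_mul x 1 hN
  rw [one_pow, ← h1, prod_image] at h2
  · rw [h2]
    refine prod_congr rfl fun t _ => ?_
    rw [mul_one]
  · intro a ha b hb hab
    exact hz.pow_inj (mem_range.mp ha) (mem_range.mp hb) hab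

/-- the product of the weights -/
theorem prod_cb {N : ℕ} {w : ℂ} (h : Rt N w) : ∃ κ : ℂ, κ ≠ 0 ∧ ∀ y : ℂ, y ≠ 0 →
    cb y * ∏ t ∈ range (N - 1), cb (y * w ^ (-1 - (t : ℤ))) = κ * cb (y ^ N) := by
  have hw := Rt.ne h
  have hN : 0 < N := lt_of_lt_of_le (by norm_num) h.pos
  refine ⟨∏ t ∈ range N, w ^ (-(t : ℤ)), prod_ne_zero_iff.mpr fun t _ => zpow_ne_zero _ hw, ?_⟩
  intro y hy
  have h1 : cb y * ∏ t ∈ range (N - 1), cb (y * w ^ (-1 - (t : ℤ))) =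
      ∏ t ∈ range N, cb (y * w ^ (-(t : ℤ))) := by
    have e : N = (N - 1) + 1 := by omega
    conv_rhs => rw [e, prod_range_succ']
    rw [mul_comm]
    congr 1
    · refine prod_congr rfl fun t _ => ?_
      congr 3
      push_cast
      ring
    · simp
  rw [h1]
  have h2 : ∀ t ∈ range N, cb (y * w ^ (-(t : ℤ))) =
      y⁻¹ * w ^ (-(t : ℤ)) * (y ^ 2 - (w ^ 2) ^ t) := by
    intro t _
    unfold cb
    rw [zpow_neg, zpow_natCast, mul_inv, inv_inv, ← pow_mul, mul_comm 2 t, pow_mul]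
    have : w ^ t ≠ 0 := pow_ne_zero _ hw
    field_simp
  rw [prod_congr rfl h2, prod_mul_distrib, prod_mul_distrib, prod_prim h.prim hN, prod_const,
    card_range]
  unfold cb
  rw [← pow_mul, mul_comm 2 N, pow_mul]
  have : y ^ N ≠ 0 := pow_ne_zero _ hy
  rw [inv_pow]
  field_simp

theorem dds : S_DDS := by
  intro hQV N w l h hl j hj r hr
  have hw := Rt.ne h
  have hl0 := hl.ne
  obtain ⟨n, hn⟩ : ∃ n, N = r + n + 1 := ⟨N - 1 - r, by omega⟩
  set β := l ^ 2 * w ^ (-1 - 2 * (j : ℤ) - r) with hβ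
  set γ := l ^ 3 * w ^ (-2 - 2 * ((j : ℤ) + r)) with hγ
  have hβ0 : β ≠ 0 := mul_ne_zero (pow_ne_zero _ hl0) (zpow_ne_zero _ hw)
  have hγ0 : γ ≠ 0 := mul_ne_zero (pow_ne_zero _ hl0) (zpow_ne_zero _ hw)
  have hcg : ∀ i : ℤ, cb (γ * w ^ i) ≠ 0 := by
    intro i
    have h1 := cb_lw h hl 3 (by norm_num) ((-2 - 2 * ((j : ℤ) + r)) + i)
    rw [zpow_add₀ hw] at h1
    rwa [hγ, mul_assoc]
  have hQ := hQV w β γ n hw hβ0 hγ0 (by
    intro k hk
    have := qi_ne h (k + 1) (by omega) (by omega)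
    unfold qi at this
    rwa [zpow_natCast] at this) (fun k _ => hcg _)
  set c := l ^ 2 * w ^ (-2 - 2 * ((j : ℤ) + r)) * (l ^ (2 * r) * w ^ ((r : ℤ) * (-1 - 2 * j - r))) *
    ∏ t ∈ range r, (lb w l (-1 - t) / cb (l ^ 3 * w ^ (-2 - 2 * ((j : ℤ) + r) + (t + 1)))) with hc
  have hwN : w ^ (r + n + 1) = -1 := by rw [← hn]; exact h.neg
  have hwn : w ^ ((n : ℤ) - 1) = -w ^ (-2 - (r : ℤ)) := by
    have h1 : w ^ ((n : ℤ) - 1) = w ^ (((r + n + 1 : ℕ) : ℤ)) * w ^ (-2 - (r : ℤ)) := by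
      rw [← zpow_add₀ hw]
      congr 1
      push_cast
      ring
    rw [h1, zpow_natCast, hwN]
    ring
  have hbase : -(β / γ) * w ^ ((n : ℤ) - 1) = mo w l (-1) (-1) := by
    have h1 : β = mo w l 2 (-1 - 2 * (j : ℤ) - r) := by rw [hβ, mo]; norm_cast
    have h2 : γ = mo w l 3 (-2 - 2 * ((j : ℤ) + r)) := by rw [hγ, mo]; norm_cast
    rw [hwn, neg_mul_neg, div_eq_mul_inv, h1, h2, mo_inv, mo_wz w l (-2 - (r : ℤ)), mo_mul hw hl0,
      mo_mul hw hl0]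
    apply mo_congr <;> ring
  have hterm : ∀ t ∈ range (n + 1), l ^ 2 * w ^ (-2 - 2 * ((j : ℤ) + ((r + t : ℕ) : ℤ))) *
      (aa w l j (r + t) r * (KK w l 0)⁻¹ ^ (r + t - r)) =
      c * ((-(β / γ) * w ^ ((n : ℤ) - 1)) ^ t * ∏ s ∈ range t, (cb (w ^ (n - s)) *
        cb (β * w ^ (-1 - (s : ℤ))) / (cb (w ^ (s + 1)) * cb (γ * w ^ (-1 - (s : ℤ)))))) := by
    intro t ht
    have htn : t ≤ n := Nat.lt_succ_iff.mp (mem_range.mp ht)
    rw [show r + t - r = t by omega, hbase, aa, show r + t - r = t by omega, hc]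
    have hK : (KK w l 0)⁻¹ = mo w l (-1) 1 := by
      unfold KK mo
      simp only [Nat.cast_zero, mul_zero, sub_zero, zpow_neg_one, zpow_one]
      rw [mul_inv, inv_inv]
    have hprod : ∀ s ∈ range t, (qi w (r + (s + 1)) * cb (l ^ 2 * w ^ (-1 - 2 * (j : ℤ) - r -
        (s + 1))) / (qi w (s + 1) * cb (l ^ 3 * w ^ (-2 - 2 * ((j : ℤ) + r) - (s + 1))))) =
        (cb (w ^ (n - s)) * cb (β * w ^ (-1 - (s : ℤ))) /
          (cb (w ^ (s + 1)) * cb (γ * w ^ (-1 - (s : ℤ))))) := by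
      intro s hs
      have hsn : s < n := lt_of_lt_of_le (mem_range.mp hs) htn
      have e1 : qi w (r + (s + 1)) = cb (w ^ (n - s)) := by
        unfold qi
        have h1 : w ^ (n - s) = -(w ^ ((r : ℤ) + (s + 1)))⁻¹ := by
          have h2 : w ^ (n - s) * w ^ ((r : ℤ) + (s + 1)) = -1 := by
            rw [← hwN, ← zpow_natCast, ← zpow_natCast, ← zpow_add₀ hw]
            congr 1
            rw [Nat.cast_sub hsn.le]
            push_cast
            ring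
          have h3 : w ^ ((r : ℤ) + (s + 1)) ≠ 0 := zpow_ne_zero _ hw
          field_simp
          exact h2
        rw [h1, cb_neg, cb_inv, neg_neg]
      have e2 : qi w (s + 1) = cb (w ^ (s + 1)) := by
        unfold qi
        rw [← zpow_natCast]
        push_cast
        rfl
      have e3 : l ^ 2 * w ^ (-1 - 2 * (j : ℤ) - r - (s + 1)) = β * w ^ (-1 - (s : ℤ)) := by
        rw [hβ, mul_assoc, ← zpow_add₀ hw]
        congr 2
        ring
      have e4 : l ^ 3 * w ^ (-2 - 2 * ((j : ℤ) + r) - (s + 1)) = γ * w ^ (-1 - (s : ℤ)) := by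
        rw [hγ, mul_assoc, ← zpow_add₀ hw]
        congr 2
        ring
      rw [e1, e2, e3, e4]
    rw [prod_congr rfl hprod]
    have hmon : l ^ 2 * w ^ (-2 - 2 * ((j : ℤ) + ((r + t : ℕ) : ℤ))) *
        (l ^ (2 * r) * w ^ ((r : ℤ) * (-1 - 2 * j - r))) * (KK w l 0)⁻¹ ^ t =
        l ^ 2 * w ^ (-2 - 2 * ((j : ℤ) + r)) * (l ^ (2 * r) * w ^ ((r : ℤ) * (-1 - 2 * j - r))) *
          mo w l (-1) (-1) ^ t := by
      rw [hK, mo_ln w l 2, mo_ln w l (2 * r), mo_wz w l (-2 - 2 * ((j : ℤ) + ((r + t : ℕ) : ℤ))),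
        mo_wz w l ((r : ℤ) * (-1 - 2 * j - r)), mo_wz w l (-2 - 2 * ((j : ℤ) + r))]
      simp only [mo_pow, mo_mul hw hl0]
      apply mo_congr
      · ring
      · push_cast
        ring
    linear_combination (∏ t ∈ range r, (lb w l (-1 - t) /
      cb (l ^ 3 * w ^ (-2 - 2 * ((j : ℤ) + r) + (t + 1))))) *
      (∏ s ∈ range t, (cb (w ^ (n - s)) * cb (β * w ^ (-1 - (s : ℤ))) /
          (cb (w ^ (s + 1)) * cb (γ * w ^ (-1 - (s : ℤ)))))) * hmon
  have hIco : ∑ k ∈ Ico r N, l ^ 2 * w ^ (-2 - 2 * ((j : ℤ) + k)) *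
      (aa w l j k r * (KK w l 0)⁻¹ ^ (k - r)) = c * ((β / w) ^ n *
        ∏ t ∈ range n, (cb (γ / β * w ^ (-(t : ℤ))) / cb (γ * w ^ (-1 - (t : ℤ))))) := by
    rw [sum_Ico_eq_sum_range, show N - r = n + 1 by omega, sum_congr rfl hterm, ← mul_sum, hQ]
  rw [hIco]
  obtain ⟨κ, hκ, hprod⟩ := prod_cb h
  -- products
  have hP1 : (∏ t ∈ range r, lb w l (-1 - t)) * ∏ t ∈ range n, cb (γ / β * w ^ (-(t : ℤ))) =
      ∏ t ∈ range (N - 1), cb (l * w ^ (-1 - (t : ℤ))) := by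
    rw [show N - 1 = r + n by omega, prod_range_add]
    congr 1
    refine prod_congr rfl fun t _ => ?_
    have h1 : β = mo w l 2 (-1 - 2 * (j : ℤ) - r) := by rw [hβ, mo]; norm_cast
    have h2 : γ = mo w l 3 (-2 - 2 * ((j : ℤ) + r)) := by rw [hγ, mo]; norm_cast
    congr 1
    have h3 : l * w ^ (-1 - ((r + t : ℕ) : ℤ)) = mo w l 1 (-1 - ((r + t : ℕ) : ℤ)) := by
      rw [mo, zpow_one]
    rw [h3, div_eq_mul_inv, h1, h2, mo_inv, mo_wz w l (-(t : ℤ)), mo_mul hw hl0, mo_mul hw hl0]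
    apply mo_congr
    · ring
    · push_cast
      ring
  have hP2 : (∏ t ∈ range r, cb (l ^ 3 * w ^ (-2 - 2 * ((j : ℤ) + r) + (t + 1)))) *
      ∏ t ∈ range n, cb (γ * w ^ (-1 - (t : ℤ))) =
      (-1) ^ r * ∏ t ∈ range (N - 1), cb (γ * w ^ (-1 - (t : ℤ))) := by
    rw [show N - 1 = n + r by omega, prod_range_add, ← prod_range_reflect
      (fun i => cb (γ * w ^ (-1 - ((n + i : ℕ) : ℤ)))) r]
    have h1 : ∀ t ∈ range r, cb (l ^ 3 * w ^ (-2 - 2 * ((j : ℤ) + r) + (t + 1))) =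
        (-1) * cb (γ * w ^ (-1 - ((n + (r - 1 - t) : ℕ) : ℤ))) := by
      intro t ht
      have htr : t < r := mem_range.mp ht
      have e1 : l ^ 3 * w ^ (-2 - 2 * ((j : ℤ) + r) + (t + 1)) =
          -(γ * w ^ (-1 - ((n + (r - 1 - t) : ℕ) : ℤ))) := by
        have e2 : w ^ (-1 - ((n + (r - 1 - t) : ℕ) : ℤ)) * w ^ (r + n + 1) = w ^ ((t : ℤ) + 1) := by
          rw [← zpow_natCast w (r + n + 1), ← zpow_add₀ hw]
          congr 1
          rw [show n + (r - 1 - t) = n + r - 1 - t by omega, Nat.cast_sub (by omega),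
            Nat.cast_sub (by omega)]
          push_cast
          ring
        rw [hwN] at e2
        rw [hγ, zpow_add₀ hw (-2 - 2 * ((j : ℤ) + r)), ← e2]
        ring
      rw [e1, cb_neg]
      ring
    rw [prod_congr rfl h1, prod_mul_distrib, prod_const, card_range]
    ring
  have hM : l ^ 2 * w ^ (-2 - 2 * ((j : ℤ) + r)) *
      (l ^ (2 * r) * w ^ ((r : ℤ) * (-1 - 2 * j - r))) * (β / w) ^ n = (-1) ^ r * l ^ (2 * N) := by
    have h1 : β / w = mo w l 2 (-2 - 2 * (j : ℤ) - r) := by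
      have e0 : w⁻¹ = mo w l 0 (-1) := by simp [mo]
      have e1 : β = mo w l 2 (-1 - 2 * (j : ℤ) - r) := by rw [hβ, mo]; norm_cast
      rw [div_eq_mul_inv, e0, e1, mo_mul hw hl0]
      apply mo_congr <;> ring
    have h2 : ((-1 : ℂ)) ^ r = mo w l 0 (-(((r + n + 1 : ℕ) : ℤ) * (2 + 2 * j + r))) := by
      unfold mo
      rw [zpow_zero, one_mul, ← mul_neg, zpow_mul, zpow_natCast, hwN, ← zpow_natCast (-1 : ℂ) r]
      rw [show (-(2 + 2 * (j : ℤ) + r)) = -(2 * (1 + j) + r) by ring, zpow_neg, zpow_add₀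
        (by norm_num : (-1 : ℂ) ≠ 0), zpow_mul]
      have h3 : ((-1 : ℂ) ^ (2 : ℤ)) = 1 := by norm_num
      rw [h3, one_zpow, one_mul, ← inv_zpow]
      norm_num
    rw [h1, h2, mo_ln w l 2, mo_ln w l (2 * r), mo_wz w l (-2 - 2 * ((j : ℤ) + r)),
      mo_wz w l ((r : ℤ) * (-1 - 2 * j - r)), mo_ln w l (2 * N)]
    simp only [mo_pow, mo_mul hw hl0]
    apply mo_congr
    · rw [hn]
      push_cast
      ring
    · push_cast
      ring
  have hγN : γ ^ N = l ^ (3 * N) := by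
    have h1 : γ ^ N = l ^ (3 * N) * ((w ^ N) ^ 2) ^ (-1 - ((j : ℤ) + r)) := by
      rw [hγ, mul_pow, ← pow_mul, ← zpow_natCast (w ^ (-2 - 2 * ((j : ℤ) + r))) N, ← zpow_mul,
        ← pow_mul, ← zpow_natCast w (N * 2), ← zpow_mul]
      congr 2
      push_cast
      ring
    rw [h1, h.neg]
    simp
  have hl1 : cb l ≠ 0 := by
    have := cb_lw h hl 1 one_ne_zero 0
    simpa using this
  have hγ1 : cb γ ≠ 0 := by
    have := hcg 0
    simpa using this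
  have hlN : cb (l ^ (3 * N)) ≠ 0 := by
    have := cb_lw h hl (3 * N) (by omega) 0
    simpa using this
  have hA1 := hprod l hl0
  have hA2 := hprod γ hγ0
  rw [hγN] at hA2
  set A1 := ∏ t ∈ range (N - 1), cb (l * w ^ (-1 - (t : ℤ))) with hA1d
  set A2 := ∏ t ∈ range (N - 1), cb (γ * w ^ (-1 - (t : ℤ))) with hA2d
  have hA20 : A2 ≠ 0 := prod_ne_zero_iff.mpr fun t _ => hcg _
  have hdd : dd N w l (j + r) = l ^ (2 * N) * (A1 / A2) := by
    unfold dd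
    have e1 : l ^ 3 * w ^ (-2 - 2 * ((j + r : ℕ) : ℤ)) = γ := by
      rw [hγ]
      push_cast
      rfl
    rw [e1, mul_assoc, mul_div_assoc]
    congr 1
    rw [div_eq_div_iff (mul_ne_zero hl1 hlN) hA20]
    apply mul_left_cancel₀ hκ
    linear_combination (cb γ * A2) * hA1.symm + (-(cb l * A1)) * hA2.symm
  rw [hdd, hc, prod_div_distrib, prod_div_distrib]
  set B1 := ∏ t ∈ range r, lb w l (-1 - t)
  set B2 := ∏ t ∈ range n, cb (γ / β * w ^ (-(t : ℤ)))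
  set B3 := ∏ t ∈ range r, cb (l ^ 3 * w ^ (-2 - 2 * ((j : ℤ) + r) + (t + 1)))
  set B4 := ∏ t ∈ range n, cb (γ * w ^ (-1 - (t : ℤ)))
  have h1 : ((-1 : ℂ)) ^ r ≠ 0 := pow_ne_zero _ (by norm_num)
  have h34 : B3 * B4 ≠ 0 := by
    rw [hP2]
    exact mul_ne_zero h1 hA20
  have hB3 : B3 ≠ 0 := left_ne_zero_of_mul h34
  have hB4 : B4 ≠ 0 := right_ne_zero_of_mul h34
  have e : l ^ 2 * w ^ (-2 - 2 * ((j : ℤ) + r)) *
      (l ^ (2 * r) * w ^ ((r : ℤ) * (-1 - 2 * j - r))) * (B1 / B3) * ((β / w) ^ n * (B2 / B4)) =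
      (l ^ 2 * w ^ (-2 - 2 * ((j : ℤ) + r)) *
      (l ^ (2 * r) * w ^ ((r : ℤ) * (-1 - 2 * j - r))) * (β / w) ^ n) *
        ((B1 * B2) / (B3 * B4)) := by
    field_simp
  rw [e, hM, hP1, hP2]
  field_simp

end Pool.Agent.Y833.CB
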