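import Pool.Agent.Y472.A.Defs

/-!
# Jobs CB3: DEC, DDS, TAS
-/

set_option autoImplicit false

namespace Pool.Agent.Y833.CB

open Pool.Agent.Y472 Finset

theorem cb_inv (y : ℂ) : cb y⁻¹ = -cb y := by
  unfold cb
  rw [inv_inv]
  ring

theorem cb_neg (y : ℂ) : cb (-y) = -cb y := by
  unfold cb
  rw [inv_neg]
  ring

theorem cb_ne {y : ℂ} (hy : y ≠ 0) (h : y ^ 2 ≠ 1) : cb y ≠ 0 := by
  unfold cb
  intro h0
  apply h
  have h1 : y * (y - y⁻¹) = 0 := by rw [h0, mul_zero]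
  rw [mul_sub, mul_inv_cancel₀ hy] at h1
  linear_combination h1

theorem cb_ne_norm {y : ℂ} (hy : y ≠ 0) (h : ‖y‖ ≠ 1) : cb y ≠ 0 := by
  apply cb_ne hy
  intro h2
  apply h
  have h3 : ‖y‖ ^ 2 = 1 := by rw [← norm_pow, h2, norm_one]
  exact (pow_eq_one_iff_of_nonneg (norm_nonneg y) two_ne_zero).mp h3

theorem Rt.ne {N : ℕ} {w : ℂ} (h : Rt N w) : w ≠ 0 := by
  intro h0
  have := h.nrm
  rw [h0, norm_zero] at this
  exact zero_ne_one this

theorem cb_lw {N : ℕ} {w l : ℂ} (h : Rt N w) (hl : Gl l) (n : ℕ) (hn : n ≠ 0) (i : ℤ) :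
    cb (l ^ n * w ^ i) ≠ 0 := by
  apply cb_ne_norm (mul_ne_zero (pow_ne_zero _ hl.ne) (zpow_ne_zero _ (Rt.ne h)))
  rw [norm_mul, norm_zpow, h.nrm, one_zpow, mul_one, norm_pow]
  intro h2
  exact hl.nrm ((pow_eq_one_iff_of_nonneg (norm_nonneg l) hn).mp h2)

theorem qi_ne {N : ℕ} {w : ℂ} (h : Rt N w) (i : ℕ) (hi : 0 < i) (hiN : i < N) :
    qi w i ≠ 0 := by
  unfold qi
  apply cb_ne (zpow_ne_zero _ (Rt.ne h))
  rw [zpow_natCast, ← pow_mul, mul_comm, pow_mul]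
  intro h2
  have := h.prim.dvd_of_pow_eq_one i h2
  exact absurd (Nat.le_of_dvd hi this) (by omega)

theorem aa_vT {w l : ℂ} (hw : w ≠ 0) (hl : l ≠ 0) (j k r : ℕ) :
    aa w l j k r * (KK w l 0)⁻¹ ^ (k - r) = vT w l (l ^ 2 * w ^ (-1 - 2 * (j : ℤ))) k r := by
  unfold aa vT
  have hK : (KK w l 0)⁻¹ = w / l := by
    unfold KK
    simp only [Nat.cast_zero, mul_zero, sub_zero, zpow_neg_one]
    field_simp
  rw [hK]
  have h1 : ∀ t : ℕ, lb w l (-1 - t) / cb (l ^ 3 * w ^ (-2 - 2 * ((j : ℤ) + r) + (t + 1))) =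
      cb (l * w ^ (-1 - (t : ℤ))) /
        cb (l * (l ^ 2 * w ^ (-1 - 2 * (j : ℤ))) * w ^ (-1 - 2 * (r : ℤ) + (t + 1))) := by
    intro t
    unfold lb
    congr 2
    have : (-2 - 2 * ((j : ℤ) + r) + (t + 1)) = (-1 - 2 * (j : ℤ)) + (-1 - 2 * (r : ℤ) + (t + 1)) := by
      ring
    rw [this, zpow_add₀ hw]
    ring
  have h2 : ∀ t : ℕ, (qi w (r + (t + 1)) * cb (l ^ 2 * w ^ (-1 - 2 * (j : ℤ) - r - (t + 1))) /
      (qi w (t + 1) * cb (l ^ 3 * w ^ (-2 - 2 * ((j : ℤ) + r) - (t + 1))))) =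
      (cb (w ^ (r + (t + 1))) * cb (l ^ 2 * w ^ (-1 - 2 * (j : ℤ)) * w ^ (-(r : ℤ) - (t + 1))) /
      (cb (w ^ (t + 1)) * cb (l * (l ^ 2 * w ^ (-1 - 2 * (j : ℤ))) *
        w ^ (-1 - 2 * (r : ℤ) - (t + 1))))) := by
    intro t
    unfold qi
    have e1 : w ^ ((r : ℤ) + ((t : ℤ) + 1)) = w ^ (r + (t + 1)) := by
      rw [← zpow_natCast]; push_cast; rfl
    have e2 : w ^ ((t : ℤ) + 1) = w ^ (t + 1) := by
      rw [← zpow_natCast]; push_cast; rfl
    have e3 : w ^ (-1 - 2 * (j : ℤ) - r - (t + 1)) = w ^ (-1 - 2 * (j : ℤ)) * w ^ (-(r : ℤ) - (t + 1)) := by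
      rw [← zpow_add₀ hw]
      congr 1
      ring
    have e4 : w ^ (-2 - 2 * ((j : ℤ) + r) - (t + 1)) = w ^ (-1 - 2 * (j : ℤ)) * w ^ (-1 - 2 * (r : ℤ) - (t + 1)) := by
      rw [← zpow_add₀ hw]
      congr 1
      ring
    rw [e1, e2, e3, e4]
    congr 3 <;> ring_nf
  simp only [h1, h2]
  have h3 : l ^ (2 * r) * w ^ ((r : ℤ) * (-1 - 2 * j - r)) =
      w ^ (-(r : ℤ) ^ 2) * (l ^ 2 * w ^ (-1 - 2 * (j : ℤ))) ^ r := by
    rw [mul_pow, ← pow_mul, ← zpow_natCast (w ^ (-1 - 2 * (j : ℤ))), ← zpow_mul,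
      show (r : ℤ) * (-1 - 2 * j - r) = (-(r : ℤ) ^ 2) + (-1 - 2 * (j : ℤ)) * r by ring,
      zpow_add₀ hw]
    ring
  rw [h3]
  ring

/-- monomials -/
noncomputable def mo (w l : ℂ) (a b : ℤ) : ℂ := l ^ a * w ^ b

theorem mo_mul {w l : ℂ} (hw : w ≠ 0) (hl : l ≠ 0) (a b c d : ℤ) :
    mo w l a b * mo w l c d = mo w l (a + c) (b + d) := by
  unfold mo
  rw [zpow_add₀ hw, zpow_add₀ hl]
  ring

theorem mo_pow (w l : ℂ) (a b : ℤ) (n : ℕ) : mo w l a b ^ n = mo w l (a * n) (b * n) := by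
  unfold mo
  rw [mul_pow, zpow_mul, zpow_mul, zpow_natCast, zpow_natCast]

theorem mo_inv (w l : ℂ) (a b : ℤ) : (mo w l a b)⁻¹ = mo w l (-a) (-b) := by
  unfold mo
  rw [mul_inv, zpow_neg, zpow_neg]

theorem mo_congr {w l : ℂ} {a b c d : ℤ} (h1 : a = c) (h2 : b = d) : mo w l a b = mo w l c d := by
  rw [h1, h2]

theorem mo_w (w l : ℂ) : w = mo w l 0 1 := by simp [mo]

theorem mo_l (w l : ℂ) : l = mo w l 1 0 := by simp [mo]

theorem mo_wz (w l : ℂ) (a : ℤ) : w ^ a = mo w l 0 a := by simp [mo]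

theorem mo_lz (w l : ℂ) (a : ℤ) : l ^ a = mo w l a 0 := by simp [mo]

theorem mo_wn (w l : ℂ) (a : ℕ) : w ^ a = mo w l 0 a := by simp [mo]

theorem mo_ln (w l : ℂ) (a : ℕ) : l ^ a = mo w l a 0 := by simp [mo]

/-- the hypotheses of `S_VWP` -/
theorem sum_vT {N : ℕ} {w l : ℂ} (h : Rt N w) (hl : Gl l) (hv : S_VWP) (j k : ℕ) (hk : k < N) :
    ∑ r ∈ range (k + 1), vT w l (l ^ 2 * w ^ (-1 - 2 * (j : ℤ))) k r = 1 := by
  have hw := Rt.ne h
  apply hv w l (l ^ 2 * w ^ (-1 - 2 * (j : ℤ))) k hw hl.ne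
    (mul_ne_zero (pow_ne_zero _ hl.ne) (zpow_ne_zero _ hw))
  · intro i hi
    have := qi_ne h (i + 1) (by omega) (by omega)
    unfold qi at this
    rwa [zpow_natCast] at this
  · intro i
    have h1 := cb_lw h hl 3 (by norm_num) ((-1 - 2 * (j : ℤ)) + i)
    rw [zpow_add₀ hw] at h1
    have e : l * (l ^ 2 * w ^ (-1 - 2 * (j : ℤ))) * w ^ i =
        l ^ 3 * (w ^ (-1 - 2 * (j : ℤ)) * w ^ i) := by ring
    rw [e]
    exact h1
  · intro i
    have h1 := cb_lw h hl 2 (by norm_num) ((-1 - 2 * (j : ℤ)) + i)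
    rw [zpow_add₀ hw] at h1
    rwa [mul_assoc]

theorem sum_aa {N : ℕ} {w l : ℂ} (h : Rt N w) (hl : Gl l) (hv : S_VWP) (j k : ℕ) (hk : k < N) :
    ∑ r ∈ range (k + 1), aa w l j k r * (KK w l 0)⁻¹ ^ (k - r) = 1 := by
  rw [← sum_vT h hl hv j k hk]
  exact sum_congr rfl fun r _ => aa_vT (Rt.ne h) hl.ne j k r

theorem vT_inv {v a b : ℂ} (hv : v ≠ 0) (ha : a ≠ 0) (hb : b ≠ 0) (k r : ℕ) :
    vT v⁻¹ a⁻¹ b⁻¹ k r = vT v a b k r * (v ^ (2 * r ^ 2) * (b⁻¹) ^ (2 * r) *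
      (a / v) ^ (2 * (k - r))) := by
  unfold vT
  have h1 : ∀ t : ℕ, cb (a⁻¹ * v⁻¹ ^ (-1 - (t : ℤ))) /
      cb (a⁻¹ * b⁻¹ * v⁻¹ ^ (-1 - 2 * (r : ℤ) + (t + 1))) =
      cb (a * v ^ (-1 - (t : ℤ))) / cb (a * b * v ^ (-1 - 2 * (r : ℤ) + (t + 1))) := by
    intro t
    rw [inv_zpow, inv_zpow, ← mul_inv, ← mul_inv, ← mul_inv, cb_inv, cb_inv, neg_div_neg_eq]
  have h2 : ∀ t : ℕ, (cb (v⁻¹ ^ (r + (t + 1))) * cb (b⁻¹ * v⁻¹ ^ (-(r : ℤ) - (t + 1))) /
      (cb (v⁻¹ ^ (t + 1)) * cb (a⁻¹ * b⁻¹ * v⁻¹ ^ (-1 - 2 * (r : ℤ) - (t + 1))))) =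
      (cb (v ^ (r + (t + 1))) * cb (b * v ^ (-(r : ℤ) - (t + 1))) /
      (cb (v ^ (t + 1)) * cb (a * b * v ^ (-1 - 2 * (r : ℤ) - (t + 1))))) := by
    intro t
    rw [inv_zpow, inv_zpow, inv_pow, inv_pow, ← mul_inv, ← mul_inv, ← mul_inv, cb_inv, cb_inv,
      cb_inv, cb_inv, neg_mul_neg, neg_mul_neg]
  simp only [h1, h2]
  have h3 : v⁻¹ ^ (-(r : ℤ) ^ 2) = v ^ (-(r : ℤ) ^ 2) * v ^ (2 * r ^ 2) := by
    rw [inv_zpow, ← zpow_neg, ← zpow_natCast v (2 * r ^ 2), ← zpow_add₀ hv]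
    congr 1
    push_cast
    ring
  have h4 : b⁻¹ ^ r = b ^ r * b⁻¹ ^ (2 * r) := by
    rw [pow_mul, ← mul_pow, sq, ← mul_assoc, mul_inv_cancel₀ hb, one_mul]
  have h5 : (v⁻¹ / a⁻¹) ^ (k - r) = (v / a) ^ (k - r) * (a / v) ^ (2 * (k - r)) := by
    rw [pow_mul, ← mul_pow]
    congr 1
    field_simp
  rw [h3, h4, h5]
  ring

theorem tas : S_TAS := by
  intro hv N w l h hl j hj k hk
  have hw := Rt.ne h
  set b := l ^ 2 * w ^ (-1 - 2 * (j : ℤ)) with hb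
  have hb0 : b ≠ 0 := mul_ne_zero (pow_ne_zero _ hl.ne) (zpow_ne_zero _ hw)
  have h1 : ∑ r ∈ range (k + 1), vT w⁻¹ l⁻¹ b⁻¹ k r = 1 := by
    apply hv w⁻¹ l⁻¹ b⁻¹ k (inv_ne_zero hw) (inv_ne_zero hl.ne) (inv_ne_zero hb0)
    · intro i hi
      have := qi_ne h (i + 1) (by omega) (by omega)
      unfold qi at this
      rw [zpow_natCast] at this
      rw [inv_pow, cb_inv]
      exact neg_ne_zero.mpr this
    · intro i
      have h1 := cb_lw h hl 3 (by norm_num) ((-1 - 2 * (j : ℤ)) + i)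
      rw [zpow_add₀ hw] at h1
      have e : l⁻¹ * b⁻¹ * w⁻¹ ^ i = (l ^ 3 * (w ^ (-1 - 2 * (j : ℤ)) * w ^ i))⁻¹ := by
        rw [inv_zpow, ← mul_inv, ← mul_inv, hb]
        congr 1
        ring
      rw [e, cb_inv]
      exact neg_ne_zero.mpr h1
    · intro i
      have h1 := cb_lw h hl 2 (by norm_num) ((-1 - 2 * (j : ℤ)) + i)
      rw [zpow_add₀ hw, ← mul_assoc] at h1
      rw [inv_zpow, ← mul_inv, cb_inv]
      exact neg_ne_zero.mpr h1
  rw [← mul_one ((w / l) ^ (2 * (2 + j + k)) * se w l j ^ 2), ← h1, mul_sum]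
  refine sum_congr rfl fun r hr => ?_
  have hrk : r ≤ k := Nat.lt_succ_iff.mp (mem_range.mp hr)
  rw [aa_vT hw hl.ne, ← hb, vT_inv hw hl.ne hb0]
  have h2 : ta w l (j + r) = (w / l) ^ (2 * (2 + j + k)) * se w l j ^ 2 *
      (w ^ (2 * r ^ 2) * b⁻¹ ^ (2 * r) * (l / w) ^ (2 * (k - r))) := by
    obtain ⟨d, rfl⟩ := Nat.exists_eq_add_of_le hrk
    have A1 : w / l = mo w l (-1) 1 := by
      unfold mo
      rw [zpow_neg_one, zpow_one]
      field_simp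
    have A2 : l / w = mo w l 1 (-1) := by
      unfold mo
      rw [zpow_neg_one, zpow_one]
      field_simp
    have A3 : se w l j ^ 2 = mo w l ((-1 - 2 * (j : ℤ)) * 2) (((j * j + j + 1 : ℕ) : ℤ) * 2) := by
      unfold se mo
      rw [mul_pow, mul_pow, ← pow_mul ((-1 : ℂ)), mul_comm j 2, pow_mul ((-1 : ℂ)), neg_one_sq,
        one_pow, one_mul, zpow_mul, zpow_mul, zpow_natCast]
      norm_cast
    have A4 : b⁻¹ = mo w l (-2) (1 + 2 * j) := by
      rw [hb, mul_inv, mo]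
      congr 1
      rw [← zpow_neg]
      congr 1
      ring
    have A5 : ta w l (j + r) = mo w l (-6 * (1 + ((j + r : ℕ) : ℤ)))
        ((2 * (1 + (j + r)) ^ 2 + 4 : ℕ) : ℤ) := by
      unfold ta mo
      rw [zpow_natCast]
    rw [A1, A2, A3, A4, A5, Nat.add_sub_cancel_left, mo_wn w l (2 * r ^ 2)]
    simp only [mo_pow, mo_mul hw hl.ne]
    apply mo_congr
    · push_cast
      ring
    · push_cast
      ring
  rw [h2]
  ring

theorem qi_zero (w : ℂ) : qi w 0 = 0 := by simp [qi, cb]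

theorem gv_hom (w l : ℂ) (j k : ℕ) : ∀ a b, a + b ≠ j + k → gv w l j k a b = 0 := by
  induction k with
  | zero =>
    intro a b hab
    change hv w l j a b = 0
    unfold hv
    rw [add_zero] at hab
    rw [if_neg hab]
  | succ k ih =>
    intro a b hab
    have h1 : gv w l j (k + 1) = F2 w l (gv w l j k) := Function.iterate_succ_apply' _ _ _
    rw [h1]
    change qi w a * gv w l j k (a - 1) b + (KK w l a)⁻¹ * qi w b * gv w l j k a (b - 1) = 0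
    have h2 : qi w a * gv w l j k (a - 1) b = 0 := by
      rcases Nat.eq_zero_or_pos a with h0 | h0
      · rw [h0, Nat.cast_zero, qi_zero, zero_mul]
      · rw [ih (a - 1) b (by omega), mul_zero]
    have h3 : qi w b * gv w l j k a (b - 1) = 0 := by
      rcases Nat.eq_zero_or_pos b with h0 | h0
      · rw [h0, Nat.cast_zero, qi_zero, zero_mul]
      · rw [ih a (b - 1) (by omega), mul_zero]
    rw [h2, mul_assoc, h3, mul_zero, add_zero]

theorem E3_io (w l : ℂ) (m : V2) : E3 w l (io m) = io (E2 w l m) := by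
  funext a b c
  change lb w l (-1 - a) * KK w l b * KK w l c * (io m) (a + 1) b c + E2 w l ((io m) a) b c =
    if a = 0 then E2 w l m b c else 0
  have h1 : (io m) (a + 1) b c = 0 := by
    change (if a + 1 = 0 then m b c else 0) = 0
    exact if_neg (Nat.succ_ne_zero a)
  rw [h1, mul_zero, zero_add]
  split_ifs with h
  · subst h
    rfl
  · have h2 : (io m) a = 0 := by
      funext b c
      exact if_neg h
    rw [h2, map_zero]
    rfl

theorem aa_succ {N : ℕ} {w l : ℂ} (h : Rt N w) (hl : Gl l) (j r d : ℕ) (hd : r + d + 1 < N) :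
    aa w l j (r + d + 1) r * (qi w ((d : ℤ) + 1) *
      cb (l ^ 3 * w ^ (-2 - 2 * ((j + r : ℕ) : ℤ) - (d + 1)))) =
    (qi w (((r + d : ℕ) : ℤ) + 1) * cb (l ^ 2 * w ^ (-1 - 2 * (j : ℤ) - (((r + d : ℕ) : ℤ) + 1)))) *
      aa w l j (r + d) r := by
  unfold aa
  have e1 : r + d + 1 - r = d + 1 := by omega
  have e2 : r + d - r = d := by omega
  rw [e1, e2, prod_range_succ]
  have h1 : qi w ((d : ℤ) + 1) ≠ 0 := by
    have := qi_ne h (d + 1) (by omega) (by omega)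
    push_cast at this
    exact this
  have h2 := cb_lw h hl 3 (by norm_num) (-2 - 2 * ((j : ℤ) + r) - (d + 1))
  have e3 : (-2 - 2 * ((j + r : ℕ) : ℤ) - (d + 1)) = (-2 - 2 * ((j : ℤ) + r) - (d + 1)) := by
    push_cast
    ring
  have e4 : ((r + d : ℕ) : ℤ) + 1 = (r : ℤ) + ((d : ℤ) + 1) := by
    push_cast
    ring
  have e5 : (-1 - 2 * (j : ℤ) - ((r : ℤ) + ((d : ℤ) + 1))) = (-1 - 2 * (j : ℤ) - r - (d + 1)) := by
    ring
  rw [e3, e4, e5]
  field_simp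

theorem dec : S_DEC := by
  intro hV hTH hHV s1 s2 sT hNIL N w l h hl j hj k hk
  refine ⟨sum_aa h hl hV j k hk, ?_⟩
  obtain ⟨t1, t2, t3, t4, t5, t6⟩ := hTH hNIL N w l h hl
  obtain ⟨v1, v2, v3⟩ := hHV s1 s2 sT N w l h hl j hj
  induction k with
  | zero =>
    have h1 : E3 w l (io (gv w l j 0)) = 0 := by
      rw [E3_io]
      change io (E2 w l (hv w l j)) = 0
      rw [v2, map_zero]
    have h2 := t3 _ h1
    rw [zero_add, sum_range_one]
    have h3 : aa w l j 0 0 = 1 := by simp [aa]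
    rw [h3, one_smul]
    exact h2
  | succ k ih =>
    have ih := ih (by omega)
    set y := io (gv w l j (k + 1)) - ∑ r ∈ range (k + 1 + 1), aa w l j (k + 1) r •
      (F3 w l)^[k + 1 - r] (Th w l (gv w l j r)) with hy
    have hE : E3 w l y = 0 := by
      rw [hy, map_sub, E3_io, (v3 k).1, map_smul, ih, sum_range_succ _ (k + 1), map_add, map_sum,
        Nat.sub_self, Function.iterate_zero, id, map_smul (E3 w l), t1, smul_zero, add_zero, smul_sum, sub_eq_zero]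
      refine sum_congr rfl fun r hr => ?_
      have hrk : r ≤ k := Nat.lt_succ_iff.mp (mem_range.mp hr)
      obtain ⟨d, rfl⟩ := Nat.exists_eq_add_of_le hrk
      rw [map_smul, show r + d + 1 - r = d + 1 by omega, show r + d - r = d by omega,
        t6 _ (j + r) d (gv_hom w l j r), smul_smul, smul_smul,
        aa_succ h hl j r d (by omega)]
    have hs : y 0 = 0 := by
      have h1 : y 0 = gv w l j (k + 1) - ∑ r ∈ range (k + 1 + 1),
          (aa w l j (k + 1) r * (KK w l 0)⁻¹ ^ (k + 1 - r)) • gv w l j (k + 1) := by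
        rw [hy]
        funext b c
        rw [Pi.sub_apply, Pi.sub_apply, Pi.sub_apply, Pi.sub_apply, Pi.sub_apply]
        congr 1
        rw [Finset.sum_apply, Finset.sum_apply, Finset.sum_apply, Finset.sum_apply,
          Finset.sum_apply]
        refine sum_congr rfl fun r hr => ?_
        have hrk : r ≤ k + 1 := Nat.lt_succ_iff.mp (mem_range.mp hr)
        rw [Pi.smul_apply, t5, t2]
        have h2 : (F2 w l)^[k + 1 - r] (gv w l j r) = gv w l j (k + 1) := by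
          unfold gv
          rw [← Function.iterate_add_apply, Nat.sub_add_cancel hrk]
        rw [h2]
        simp only [Pi.smul_apply, smul_eq_mul]
        ring
      rw [h1, ← sum_smul, sum_aa h hl hV j (k + 1) hk, one_smul, sub_self]
    have h4 := t3 y hE
    rw [hs, map_zero] at h4
    exact sub_eq_zero.mp h4

end Pool.Agent.Y833.CB
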