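import Pool.Agent.Y833.CB.Dec
import Pool.Agent.Y472.A.Defs2

/-!
# Job CB3: SPL and BASF
-/

set_option autoImplicit false

namespace Pool.Agent.Y833.CB

open Pool.Agent.Y472 Finset

/-- the closed formula for integers -/
noncomputable def gz (w l : ℂ) (D : ℕ) (i : ℕ) (q s : ℤ) : ℂ :=
  (-1) ^ i * (∏ t ∈ range i, (cb (l ^ 3 * w ^ (-2 - (D : ℤ) - t)) * qi w (q - t))) *
      (l ^ (-s - i) * w ^ (s * (q + 1) + i * (s + 1)))

theorem fb_eq {N : ℕ} {w l : ℂ} {D i a b : ℕ} (h1 : a + b = D) (h2 : a < N) (h3 : b < N) :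
    fb N w l D i a b = gz w l D i a b := by
  unfold fb gz
  rw [if_pos ⟨h1, h2, h3⟩]

theorem fb_zero {N : ℕ} {w l : ℂ} {D i a b : ℕ} (h : ¬ (a + b = D ∧ a < N ∧ b < N)) :
    fb N w l D i a b = 0 := by
  unfold fb
  rw [if_neg h]

theorem qi_N {N : ℕ} {w : ℂ} (h : Rt N w) : qi w N = 0 := by
  unfold qi cb
  rw [zpow_natCast, h.neg]
  norm_num

theorem cb_neg' {N : ℕ} {w : ℂ} (h : Rt N w) : cb (w ^ N) = 0 := by
  have := qi_N h
  unfold qi at this
  rwa [zpow_natCast] at this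

/-- lowering the first index -/
theorem fb_low {N : ℕ} {w l : ℂ} {D i a b : ℕ} (hD : D < i + N)
    (h1 : a + b = D) (h2 : a < N) (h3 : b < N) :
    qi w a * fb N w l D i (a - 1) (b + 1) = qi w a * gz w l D i ((a : ℤ) - 1) ((b : ℤ) + 1) := by
  rcases Nat.eq_zero_or_pos a with h0 | h0
  · subst h0
    rw [Nat.cast_zero, qi_zero, zero_mul, zero_mul]
  · by_cases hb : b + 1 < N
    · rw [fb_eq (by omega) (by omega) hb]
      push_cast [Nat.cast_sub h0]
      rfl
    · rw [fb_zero (by omega), mul_zero]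
      symm
      rw [mul_eq_zero]
      by_cases hi : a ≤ i
      · right
        unfold gz
        rw [prod_eq_zero (mem_range.mpr (show a - 1 < i by omega))]
        · ring
        · rw [Nat.cast_sub h0]
          push_cast
          rw [sub_self, qi_zero, mul_zero]
      · omega

/-- raising the first index -/
theorem fb_up {N : ℕ} {w l : ℂ} (h : Rt N w) {D i a b : ℕ} (hD : D < i + N)
    (h1 : a + b = D) (h2 : a < N) (h3 : b < N) :
    qi w b * fb N w l D i (a + 1) (b - 1) = qi w b * gz w l D i ((a : ℤ) + 1) ((b : ℤ) - 1) := by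
  rcases Nat.eq_zero_or_pos b with h0 | h0
  · subst h0
    rw [Nat.cast_zero, qi_zero, zero_mul, zero_mul]
  · by_cases ha : a + 1 < N
    · rw [fb_eq (by omega) ha (by omega)]
      push_cast [Nat.cast_sub h0]
      rfl
    · rw [fb_zero (by omega), mul_zero]
      symm
      rw [mul_eq_zero]
      right
      have hi : 0 < i := by omega
      unfold gz
      rw [prod_eq_zero (mem_range.mpr hi)]
      · ring
      · have e : (a : ℤ) + 1 - ((0 : ℕ) : ℤ) = (N : ℤ) := by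
          push_cast
          omega
        rw [e, qi_N h, mul_zero]

/-- recursion in `i` -/
theorem gz_succ {w l : ℂ} (hw : w ≠ 0) (hl : l ≠ 0) (D i : ℕ) (q s : ℤ) :
    gz w l D (i + 1) q s = -(cb (l ^ 3 * w ^ (-2 - (D : ℤ) - i)) * qi w (q - i) * l⁻¹ *
      w ^ (s + 1)) * gz w l D i q s := by
  unfold gz
  rw [prod_range_succ, pow_succ]
  have e1 : l ^ (-s - ((i + 1 : ℕ) : ℤ)) = l ^ (-s - (i : ℤ)) * l⁻¹ := by
    rw [← zpow_neg_one, ← zpow_add₀ hl]
    congr 1
    push_cast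
    ring
  have e2 : w ^ (s * (q + 1) + ((i + 1 : ℕ) : ℤ) * (s + 1)) =
      w ^ (s * (q + 1) + (i : ℤ) * (s + 1)) * w ^ (s + 1) := by
    rw [← zpow_add₀ hw]
    congr 1
    push_cast
    ring
  rw [e1, e2]
  ring

/-- lowering for the closed formula -/
theorem gz_low {w l : ℂ} (hw : w ≠ 0) (hl : l ≠ 0) (D i : ℕ) (q s : ℤ) :
    qi w q * gz w l D i (q - 1) (s + 1) = qi w (q - i) * (l⁻¹ * w ^ (q - s + i)) *
      gz w l D i q s := by
  unfold gz
  have h1 : qi w q * ∏ t ∈ range i, qi w (q - 1 - t) = (∏ t ∈ range i, qi w (q - t)) *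
      qi w (q - i) := by
    rw [← prod_range_succ (fun t : ℕ => qi w (q - t)), prod_range_succ', mul_comm]
    congr 1
    · refine prod_congr rfl fun t _ => ?_
      congr 1
      push_cast
      ring
    · simp
  rw [prod_mul_distrib, prod_mul_distrib]
  have e1 : l ^ (-(s + 1) - (i : ℤ)) = l ^ (-s - (i : ℤ)) * l⁻¹ := by
    rw [← zpow_neg_one, ← zpow_add₀ hl]
    congr 1
    ring
  have e2 : w ^ ((s + 1) * (q - 1 + 1) + (i : ℤ) * (s + 1 + 1)) =
      w ^ (s * (q + 1) + (i : ℤ) * (s + 1)) * w ^ (q - s + i) := by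
    rw [← zpow_add₀ hw]
    congr 1
    ring
  rw [e1, e2]
  linear_combination ((-1) ^ i * (∏ t ∈ range i, cb (l ^ 3 * w ^ (-2 - (D : ℤ) - t))) *
    (l ^ (-s - (i : ℤ)) * l⁻¹) * (w ^ (s * (q + 1) + (i : ℤ) * (s + 1)) * w ^ (q - s + i))) * h1

/-- raising for the closed formula -/
theorem gz_up {w l : ℂ} (hw : w ≠ 0) (hl : l ≠ 0) (D i : ℕ) (q s : ℤ) :
    gz w l D (i + 1) (q + 1) (s - 1) = -(cb (l ^ 3 * w ^ (-2 - (D : ℤ) - i)) * qi w (q + 1) *
      w ^ (2 * s - q - 2 - i)) * gz w l D i q s := by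
  unfold gz
  have h1 : ∏ t ∈ range (i + 1), qi w (q + 1 - t) = (∏ t ∈ range i, qi w (q - t)) *
      qi w (q + 1) := by
    rw [prod_range_succ']
    congr 1
    · refine prod_congr rfl fun t _ => ?_
      congr 1
      push_cast
      ring
    · simp
  rw [prod_mul_distrib, prod_mul_distrib, h1, prod_range_succ, pow_succ]
  have e1 : l ^ (-(s - 1) - ((i + 1 : ℕ) : ℤ)) = l ^ (-s - (i : ℤ)) := by
    congr 1
    push_cast
    ring
  have e2 : w ^ ((s - 1) * (q + 1 + 1) + ((i + 1 : ℕ) : ℤ) * (s - 1 + 1)) =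
      w ^ (s * (q + 1) + (i : ℤ) * (s + 1)) * w ^ (2 * s - q - 2 - i) := by
    rw [← zpow_add₀ hw]
    congr 1
    push_cast
    ring
  rw [e1, e2]
  ring

theorem cas_apply (w l : ℂ) (x : V2) (a b : ℕ) : cas w l x a b =
    (lb w l (-a) * qi w a * KK w l b + (KK w l a)⁻¹ * qi w b * lb w l (-b) +
      (w * KK w l a * KK w l b + (w * KK w l a * KK w l b)⁻¹)) * x a b +
    lb w l (-1 - b) * (qi w a * x (a - 1) (b + 1)) +
    (KK w l a)⁻¹ * lb w l (-1 - a) * (l * w ^ (1 - 2 * (b : ℤ))) *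
      (qi w b * x (a + 1) (b - 1)) := by
  change qi w a * (lb w l (-1 - ((a - 1 : ℕ) : ℤ)) * KK w l b * x (a - 1 + 1) b +
      lb w l (-1 - b) * x (a - 1) (b + 1)) + (KK w l a)⁻¹ * qi w b *
      (lb w l (-1 - a) * KK w l (b - 1) * x (a + 1) (b - 1) +
      lb w l (-1 - ((b - 1 : ℕ) : ℤ)) * x a (b - 1 + 1)) +
      (w * KK w l a * KK w l b + (w * KK w l a * KK w l b)⁻¹) * x a b = _
  have hA : qi w a * (lb w l (-1 - ((a - 1 : ℕ) : ℤ)) * KK w l b * x (a - 1 + 1) b) =
      lb w l (-a) * qi w a * KK w l b * x a b := by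
    rcases Nat.eq_zero_or_pos a with h0 | h0
    · subst h0
      simp [qi_zero]
    · rw [Nat.sub_add_cancel h0, Nat.cast_sub h0,
        show (-1 - ((a : ℤ) - ((1 : ℕ) : ℤ))) = -(a : ℤ) by push_cast; ring]
      ring
  have hB : qi w b * (lb w l (-1 - ((b - 1 : ℕ) : ℤ)) * x a (b - 1 + 1)) =
      qi w b * lb w l (-b) * x a b := by
    rcases Nat.eq_zero_or_pos b with h0 | h0
    · subst h0
      simp [qi_zero]
    · rw [Nat.sub_add_cancel h0, Nat.cast_sub h0,
        show (-1 - ((b : ℤ) - ((1 : ℕ) : ℤ))) = -(b : ℤ) by push_cast; ring]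
      ring
  have hC : qi w b * KK w l (b - 1) = qi w b * (l * w ^ (1 - 2 * (b : ℤ))) := by
    rcases Nat.eq_zero_or_pos b with h0 | h0
    · subst h0
      simp [qi_zero]
    · unfold KK
      rw [Nat.cast_sub h0, show (-1 - 2 * ((b : ℤ) - ((1 : ℕ) : ℤ))) = 1 - 2 * (b : ℤ) by
        push_cast; ring]
  linear_combination hA + (KK w l a)⁻¹ * hB + (KK w l a)⁻¹ * lb w l (-1 - a) *
    x (a + 1) (b - 1) * hC

/-- first identity -/
theorem id1 {w l : ℂ} (hw : w ≠ 0) (hl : l ≠ 0) (q s i : ℕ) :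
    (uu w l q - uu w l i) - (l ^ 2 * w ^ (-2 - 2 * (s : ℤ)))⁻¹ * lb w l (-1 - s) *
      (qi w ((q : ℤ) - i) * (l⁻¹ * w ^ ((q : ℤ) - s + i))) =
    -(cb (l ^ 3 * w ^ (-2 - ((q + s : ℕ) : ℤ) - i)) * qi w ((q : ℤ) - i) * l⁻¹ *
      w ^ ((s : ℤ) + 1)) := by
  unfold uu lb qi cb
  have ex : ∀ n : ℕ, w ^ n ≠ 0 := fun n => pow_ne_zero _ hw
  push_cast
  simp only [mul_add, mul_sub, zpow_sub₀ hw, zpow_add₀ hw, zpow_neg, zpow_mul, zpow_one,
    zpow_natCast, mul_comm (2 : ℤ), zpow_ofNat]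
  have h1 := ex q
  have h2 := ex s
  have h3 := ex i
  generalize w ^ q = x at *
  generalize w ^ s = y at *
  generalize w ^ i = z at *
  field_simp
  ring

/-- second identity -/
theorem id2 {w l : ℂ} (hw : w ≠ 0) (hl : l ≠ 0) (q s i : ℕ) :
    (lb w l (-q) * qi w q * KK w l s + (KK w l q)⁻¹ * qi w s * lb w l (-s) +
      (w * KK w l q * KK w l s + (w * KK w l q * KK w l s)⁻¹) - uu w l (i + 1)) *
      (qi w ((q : ℤ) - i) * l⁻¹ * w ^ ((s : ℤ) + 1)) +
    lb w l (-1 - s) * (qi w ((q : ℤ) - ((i + 1 : ℕ) : ℤ)) *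
      (l⁻¹ * w ^ ((q : ℤ) - s + ((i + 1 : ℕ) : ℤ)))) *
      (qi w ((q : ℤ) - i) * l⁻¹ * w ^ ((s : ℤ) + 1)) +
    (KK w l q)⁻¹ * lb w l (-1 - q) * (l * w ^ (1 - 2 * (s : ℤ))) * qi w s *
      (qi w ((q : ℤ) + 1) * w ^ (2 * (s : ℤ) - q - 2 - i)) =
    qi w (((q + s : ℕ) : ℤ) + 1 - ((i + 1 : ℕ) : ℤ)) * qi w ((i + 1 : ℕ) : ℤ) *
      lb w l (-((i + 1 : ℕ) : ℤ)) := by
  unfold uu lb qi cb KK
  have ex : ∀ n : ℕ, w ^ n ≠ 0 := fun n => pow_ne_zero _ hw
  push_cast
  simp only [mul_add, mul_sub, neg_add, neg_sub, zpow_sub₀ hw, zpow_add₀ hw, zpow_neg, zpow_mul,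
    zpow_one, zpow_natCast, mul_comm (2 : ℤ), zpow_ofNat]
  have h1 := ex q
  have h2 := ex s
  have h3 := ex i
  generalize w ^ q = x at *
  generalize w ^ s = y at *
  generalize w ^ i = z at *
  field_simp
  ring

/-- second identity for `i = 0` -/
theorem id20 {w l : ℂ} (hw : w ≠ 0) (hl : l ≠ 0) (q s : ℕ) :
    (lb w l (-q) * qi w q * KK w l s + (KK w l q)⁻¹ * qi w s * lb w l (-s) +
      (w * KK w l q * KK w l s + (w * KK w l q * KK w l s)⁻¹) - uu w l 0) +
    lb w l (-1 - s) * (qi w q * (l⁻¹ * w ^ ((q : ℤ) - s))) +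
    (KK w l q)⁻¹ * lb w l (-1 - q) * (l * w ^ (1 - 2 * (s : ℤ))) * qi w s *
      (l * w ^ ((s : ℤ) - q - 2)) = 0 := by
  unfold uu lb qi cb KK
  have ex : ∀ n : ℕ, w ^ n ≠ 0 := fun n => pow_ne_zero _ hw
  push_cast
  simp only [mul_add, mul_sub, neg_add, neg_sub, zpow_sub₀ hw, zpow_add₀ hw, zpow_neg, zpow_mul,
    zpow_one, zpow_natCast, mul_comm (2 : ℤ), zpow_ofNat, zpow_zero, zero_mul]
  have h1 := ex q
  have h2 := ex s
  generalize w ^ q = x at *
  generalize w ^ s = y at *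
  field_simp
  ring

theorem spl : S_SPL := by
  intro N w l h hl D i hD hi
  have hw := Rt.ne h
  have hl0 := hl.ne
  constructor
  · funext a b
    change uu w l a * fb N w l D i a b - (l ^ 2 * w ^ (-2 - 2 * (b : ℤ)))⁻¹ * qi w a *
      lb w l (-1 - b) * fb N w l D i (a - 1) (b + 1) =
      uu w l i * fb N w l D i a b + fb N w l D (i + 1) a b
    by_cases hs : a + b = D ∧ a < N ∧ b < N
    · obtain ⟨h1, h2, h3⟩ := hs
      have e1 := fb_low (w := w) (l := l) hD h1 h2 h3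
      rw [gz_low hw hl0] at e1
      have e2 := fb_eq (N := N) (w := w) (l := l) (i := i) h1 h2 h3
      have e3 := fb_eq (N := N) (w := w) (l := l) (i := i + 1) h1 h2 h3
      rw [gz_succ hw hl0] at e3
      have e4 := id1 hw hl0 a b i
      rw [h1] at e4
      rw [e2, e3]
      linear_combination gz w l D i a b * e4 - ((l ^ 2 * w ^ (-2 - 2 * (b : ℤ)))⁻¹ *
        lb w l (-1 - b)) * e1
    · have h4 : qi w a * fb N w l D i (a - 1) (b + 1) = 0 := by
        rcases Nat.eq_zero_or_pos a with h0 | h0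
        · rw [h0, Nat.cast_zero, qi_zero, zero_mul]
        · by_cases haN : a = N
          · rw [haN, qi_N h, zero_mul]
          · rw [fb_zero (by omega), mul_zero]
      rw [fb_zero hs, fb_zero hs]
      linear_combination (-((l ^ 2 * w ^ (-2 - 2 * (b : ℤ)))⁻¹ * lb w l (-1 - b))) * h4
  · funext a b
    change cas w l (fb N w l D i) a b =
      uu w l i * fb N w l D i a b + ph w l D i * fb N w l D (i - 1) a b
    rw [cas_apply]
    by_cases hs : a + b = D ∧ a < N ∧ b < N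
    · obtain ⟨h1, h2, h3⟩ := hs
      have e1 := fb_low (w := w) (l := l) hD h1 h2 h3
      have e5 := fb_up (l := l) h hD h1 h2 h3
      rw [gz_low hw hl0] at e1
      have e2 := fb_eq (N := N) (w := w) (l := l) (i := i) h1 h2 h3
      rcases Nat.eq_zero_or_pos i with hi0 | hi0
      · subst hi0
        have hph : ph w l D 0 = 0 := by
          unfold ph
          rw [Nat.cast_zero, qi_zero]
          ring
        have e6 : gz w l D 0 ((a : ℤ) + 1) ((b : ℤ) - 1) = l * w ^ ((b : ℤ) - a - 2) *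
            gz w l D 0 a b := by
          unfold gz
          simp only [pow_zero, range_zero, prod_empty, mul_one, one_mul, Nat.cast_zero, sub_zero,
            zero_mul, add_zero]
          have f1 : l ^ (-((b : ℤ) - 1)) = l * l ^ (-(b : ℤ)) := by
            rw [mul_comm, ← zpow_add_one₀ hl0]
            congr 1
            ring
          have f2 : w ^ (((b : ℤ) - 1) * ((a : ℤ) + 1 + 1)) = w ^ ((b : ℤ) - a - 2) *
              w ^ ((b : ℤ) * (a + 1)) := by
            rw [← zpow_add₀ hw]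
            congr 1
            ring
          rw [f1, f2]
          ring
        rw [e6] at e5
        have e4 := id20 hw hl0 a b
        rw [hph, e1, e5, e2]
        rw [Nat.cast_zero, sub_zero, add_zero]
        linear_combination gz w l D 0 a b * e4
      · obtain ⟨i', rfl⟩ : ∃ i', i = i' + 1 := ⟨i - 1, by omega⟩
        rw [Nat.add_sub_cancel]
        have e3 := fb_eq (N := N) (w := w) (l := l) (i := i') h1 h2 h3
        have e4 := id2 hw hl0 a b i'
        rw [h1] at e4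
        rw [gz_up hw hl0] at e5
        rw [e1, e5, e2, e3, gz_succ hw hl0]
        unfold ph
        have e7 : (-1 - (D : ℤ) - ((i' + 1 : ℕ) : ℤ)) = -2 - (D : ℤ) - i' := by
          push_cast
          ring
        rw [e7]
        linear_combination (-(cb (l ^ 3 * w ^ (-2 - (D : ℤ) - i')) * gz w l D i' a b)) * e4
    · have h4 : qi w a * fb N w l D i (a - 1) (b + 1) = 0 := by
        rcases Nat.eq_zero_or_pos a with h0 | h0
        · rw [h0, Nat.cast_zero, qi_zero, zero_mul]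
        · by_cases haN : a = N
          · rw [haN, qi_N h, zero_mul]
          · rw [fb_zero (by omega), mul_zero]
      have h5 : qi w b * fb N w l D i (a + 1) (b - 1) = 0 := by
        rcases Nat.eq_zero_or_pos b with h0 | h0
        · rw [h0, Nat.cast_zero, qi_zero, zero_mul]
        · by_cases hbN : b = N
          · rw [hbN, qi_N h, zero_mul]
          · rw [fb_zero (by omega), mul_zero]
      rw [h4, h5, fb_zero hs, fb_zero hs]
      ring

theorem basf : S_BASF := by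
  intro N w l h hl hdet
  classical
  have hw := Rt.ne h
  have hl0 := hl.ne
  obtain ⟨v, hv0, hv⟩ := Matrix.exists_mulVec_eq_zero_iff.mpr hdet
  obtain ⟨p0, hp0⟩ : ∃ p, v p ≠ 0 := by
    by_contra hcon
    push Not at hcon
    exact hv0 (funext hcon)
  obtain ⟨p, hp, hmin⟩ := exists_min_image (univ.filter fun p => v p ≠ 0)
    (fun p : Fin N × Fin N => (p.1 : ℕ)) ⟨p0, mem_filter.mpr ⟨mem_univ _, hp0⟩⟩
  have hvp : v p ≠ 0 := (mem_filter.mp hp).2
  have h1 := congrFun hv p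
  rw [Matrix.mulVec, dotProduct, Pi.zero_apply, sum_eq_single p] at h1
  · rcases mul_eq_zero.mp h1 with h2 | h2
    · rw [fb_eq rfl p.1.2 p.2.2] at h2
      unfold gz at h2
      have h3 : (-1 : ℂ) ^ (p.1 : ℕ) ≠ 0 := pow_ne_zero _ (by norm_num)
      have h4 : l ^ (-((p.2 : ℕ) : ℤ) - ((p.1 : ℕ) : ℤ)) ≠ 0 := zpow_ne_zero _ hl0
      have h5 : w ^ (((p.2 : ℕ) : ℤ) * (((p.1 : ℕ) : ℤ) + 1) + ((p.1 : ℕ) : ℤ) *
          (((p.2 : ℕ) : ℤ) + 1)) ≠ 0 := zpow_ne_zero _ hw
      have h6 : ∏ t ∈ range (p.1 : ℕ), (cb (l ^ 3 * w ^ (-2 - (((p.1 : ℕ) + (p.2 : ℕ) : ℕ) : ℤ) - t)) *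
          qi w (((p.1 : ℕ) : ℤ) - t)) ≠ 0 := by
        rw [prod_ne_zero_iff]
        intro t ht
        have htp := mem_range.mp ht
        refine mul_ne_zero (cb_lw h hl 3 (by norm_num) _) ?_
        have h7 := qi_ne h ((p.1 : ℕ) - t) (by omega) (by omega)
        rwa [Nat.cast_sub htp.le] at h7
      exact absurd h2 (mul_ne_zero (mul_ne_zero h3 h6) (mul_ne_zero h4 h5))
    · exact hvp h2
  · intro p' _ hne
    by_cases hv' : v p' = 0
    · rw [hv', mul_zero]
    · have h2 := hmin p' (mem_filter.mpr ⟨mem_univ _, hv'⟩)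
      have h3 : fb N w l (p'.1 + p'.2) p'.1 p.1 p.2 = 0 := by
        by_cases hs : (p.1 : ℕ) + p.2 = p'.1 + p'.2
        · rcases Nat.lt_or_ge (p.1 : ℕ) p'.1 with hlt | hge
          · rw [fb_eq hs p.1.2 p.2.2]
            unfold gz
            rw [prod_eq_zero (mem_range.mpr hlt)]
            · ring
            · rw [sub_self, qi_zero, mul_zero]
          · exfalso
            apply hne
            have e1 : (p'.1 : ℕ) = p.1 := le_antisymm hge h2
            have e2 : (p'.2 : ℕ) = p.2 := by omega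
            exact Prod.ext (Fin.ext e1) (Fin.ext e2)
        · exact fb_zero fun h' => hs h'.1
      rw [h3, zero_mul]
  · intro h'
    exact absurd (mem_univ _) h'

end Pool.Agent.Y833.CB
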