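import Pool.Agent.Y833.CB.Mn2

/-!
# CB3-MAIN3: the growth rate of the coloured Jones polynomial (assembly)
-/

set_option autoImplicit false

namespace Pool.Agent.Y833.CB

open Finset Filter Topology Metric
open Pool.Agent.W711.HT Pool.Agent.Y472
open Pool.Agent.Y481 (cw)
open scoped Real

lemma comb {S E : ℕ → ℂ} {V δ : ℝ} (hV : 0 < V) (hδ : 0 < δ)
    (hS : Tendsto (fun N : ℕ => Real.log ‖S N‖ / N) atTop (𝓝 V))
    (hE : ∀ᶠ N : ℕ in atTop, ‖E N - S N‖ ≤ Real.exp (N * (V - δ))) :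
    Tendsto (fun N : ℕ => Real.log ‖E N‖ / N) atTop (𝓝 V) := by
  rw [Metric.tendsto_nhds]
  intro ε hε
  set η := min (ε / 4) (min (δ / 4) (V / 4)) with hη
  have hη0 : 0 < η := by positivity
  have hη1 : η ≤ ε / 4 := min_le_left _ _
  have hη2 : η ≤ δ / 4 := (min_le_right _ _).trans (min_le_left _ _)
  have hη3 : η ≤ V / 4 := (min_le_right _ _).trans (min_le_right _ _)
  have h1 := (Metric.tendsto_nhds.1 hS) η hη0
  have h2 : ∀ᶠ N : ℕ in atTop, 1 / η ≤ (N : ℝ) :=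
    tendsto_natCast_atTop_atTop.eventually_ge_atTop _
  filter_upwards [h1, h2, hE, eventually_ge_atTop 1] with N h1 h2 hE hN
  have hN0 : (0 : ℝ) < N := by exact_mod_cast hN
  rw [Real.dist_eq, abs_lt] at h1
  have h3 : 1 ≤ N * η := by
    rw [div_le_iff₀ hη0] at h2; linarith
  have hexp : 2 ≤ Real.exp (N * η) := by
    have := Real.add_one_le_exp (N * η)
    linarith
  have hlo : (V - η) * N < Real.log ‖S N‖ := by
    have : V - η < Real.log ‖S N‖ / N := by linarith [h1.1]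
    rwa [lt_div_iff₀ hN0] at this
  have hhi : Real.log ‖S N‖ < (V + η) * N := by
    have : Real.log ‖S N‖ / N < V + η := by linarith [h1.2]
    rwa [div_lt_iff₀ hN0] at this
  have hS0 : 0 < ‖S N‖ := by
    rcases (norm_nonneg (S N)).eq_or_lt with h | h
    · rw [← h, Real.log_zero] at hlo
      have : 0 < (V - η) * N := by
        have : 0 < V - η := by linarith
        positivity
      linarith
    · exact h
  have hlo' : Real.exp ((V - η) * N) ≤ ‖S N‖ := by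
    rw [← Real.le_log_iff_exp_le hS0]; exact hlo.le
  have hhi' : ‖S N‖ ≤ Real.exp ((V + η) * N) := by
    rw [← Real.log_le_iff_le_exp hS0]; exact hhi.le
  have hd : Real.exp (N * (V - δ)) ≤ Real.exp ((V - 2 * η) * N) := by
    refine Real.exp_le_exp.2 ?_
    rw [mul_comm]
    have : V - δ ≤ V - 2 * η := by linarith
    gcongr
  have e1 : Real.exp ((V - η) * N) = Real.exp ((V - 2 * η) * N) * Real.exp (N * η) := by
    rw [← Real.exp_add]; congr 1; ring
  have e2 : Real.exp ((V + 2 * η) * N) = Real.exp ((V + η) * N) * Real.exp (N * η) := by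
    rw [← Real.exp_add]; congr 1; ring
  have hp1 := Real.exp_pos ((V - 2 * η) * N)
  have hp2 := Real.exp_pos ((V + η) * N)
  have hlow : Real.exp ((V - 2 * η) * N) ≤ ‖E N‖ := by
    have h4 : ‖S N‖ ≤ ‖E N‖ + ‖E N - S N‖ := by
      have := norm_sub_norm_le (S N) (E N)
      rw [norm_sub_rev] at this
      linarith
    have h5 : Real.exp ((V - 2 * η) * N) * 2 ≤ Real.exp ((V - η) * N) := by
      rw [e1]; gcongr
    linarith
  have hE0 : 0 < ‖E N‖ := lt_of_lt_of_le hp1 hlow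
  have hup : ‖E N‖ ≤ Real.exp ((V + 2 * η) * N) := by
    have h4 : ‖E N‖ ≤ ‖S N‖ + ‖E N - S N‖ := by
      have := norm_add_le (S N) (E N - S N)
      rwa [add_sub_cancel] at this
    have h5 : Real.exp ((V + η) * N) * 2 ≤ Real.exp ((V + 2 * η) * N) := by
      rw [e2]; gcongr
    have h6 : Real.exp ((V - 2 * η) * N) ≤ Real.exp ((V + η) * N) := by
      refine Real.exp_le_exp.2 ?_
      have : V - 2 * η ≤ V + η := by linarith
      gcongr
    linarith
  have hl1 : (V - 2 * η) * N ≤ Real.log ‖E N‖ := by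
    rw [Real.le_log_iff_exp_le hE0]; exact hlow
  have hl2 : Real.log ‖E N‖ ≤ (V + 2 * η) * N := by
    rw [Real.log_le_iff_le_exp hE0]; exact hup
  rw [Real.dist_eq, abs_lt]
  constructor
  · have : V - 2 * η ≤ Real.log ‖E N‖ / N := by rwa [le_div_iff₀ hN0]
    linarith
  · have : Real.log ‖E N‖ / N ≤ V + 2 * η := by rwa [div_le_iff₀ hN0]
    linarith

lemma poly_fac {S : ℕ → ℂ} {V : ℝ} (hV : 0 < V) (j : ℕ)
    (hS : Tendsto (fun N : ℕ => Real.log ‖S N‖ / N) atTop (𝓝 V)) :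
    Tendsto (fun N : ℕ => Real.log ‖((N : ℂ) / (2 * π)) ^ j * S N‖ / N) atTop (𝓝 V) := by
  have h1 : Tendsto (fun N : ℕ => Real.log N / (N : ℝ)) atTop (𝓝 0) := by
    have := (Real.isLittleO_log_id_atTop.tendsto_div_nhds_zero).comp
      (tendsto_natCast_atTop_atTop (R := ℝ))
    exact this
  have h2 : Tendsto (fun N : ℕ => Real.log (2 * π) / (N : ℝ)) atTop (𝓝 0) :=
    tendsto_const_div_atTop_nhds_zero_nat _
  have h3 : Tendsto (fun N : ℕ => (j : ℝ) * (Real.log N / N - Real.log (2 * π) / N) +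
      Real.log ‖S N‖ / N) atTop (𝓝 V) := by
    have := ((h1.sub h2).const_mul (j : ℝ)).add hS
    simpa using this
  refine h3.congr' ?_
  have hpos : ∀ᶠ N : ℕ in atTop, 0 < Real.log ‖S N‖ / N := hS.eventually_const_lt hV
  filter_upwards [hpos, eventually_ge_atTop 1] with N hN h1
  have hS0 : ‖S N‖ ≠ 0 := by
    intro h
    rw [h, Real.log_zero, zero_div] at hN
    exact lt_irrefl _ hN
  have hN0 : (0 : ℝ) < N := by exact_mod_cast h1
  have hπ := Real.pi_pos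
  have hn : ‖((N : ℂ) / (2 * π)) ^ j‖ = ((N : ℝ) / (2 * π)) ^ j := by
    rw [norm_pow, norm_div, norm_mul, Complex.norm_natCast, Complex.norm_real, Real.norm_eq_abs,
      abs_of_pos hπ]
    simp
  rw [norm_mul, hn, Real.log_mul (by positivity) hS0, Real.log_pow, Real.log_div (by positivity)
    (by positivity)]
  ring

/-- the conclusion of XL -/
def S_XLC : Prop := ∀ (ρ₀ c C : ℝ) (s dl : ℂ → ℂ → ℂ → ℂ),
  SD3 ρ₀ c C s dl → ∀ k : ℕ, 1 ≤ k → ∃ R c' : ℝ, 0 < R ∧ R ≤ 1 ∧ R ≤ ρ₀ ∧ 0 < c' ∧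
    ∃ B C' M : ℝ, 0 < B ∧ 0 < C' ∧ 0 < M ∧ ∀ ls : List (ℤ × ℤ), ls.length = k →
      (∀ p ∈ ls, M ≤ |(p.1 : ℝ)| ∧ M ≤ |(p.2 : ℝ)|) → ∃ (G : ℂ → ℂ) (z : ℂ → ℕ → ℂ),
        DifferentiableOn ℂ G (Rc R R) ∧ (∀ χ ∈ Rc R R, G (-χ) = G χ) ∧
        (∀ χ ∈ Rc R R, ‖G χ‖ ≤ B ∧ (deriv (deriv G) χ).re ≤ -c' ∧ bet / 2 ≤ (G χ).re) ∧
        MW (XN ls) G (Rc R R) ∧
        (∀ χ ∈ Rc R R, (∀ j < 2 * k, z χ j ∈ Rc (R / 2) (R / 2) ∧ 0 < (z χ j).im ∧
            ‖z χ j‖ ≤ 1 / 10 ∧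
          Complex.I * cw ls ((j + 1) % (2 * k)) * z χ ((j + 1) % (2 * k)) / (2 * π) + Complex.I +
            deriv (fun w => s (z χ j) w χ) (z χ ((j + 1) % (2 * k))) +
            deriv (fun w => s w (z χ (((j + 1) % (2 * k) + 1) % (2 * k))) χ)
              (z χ ((j + 1) % (2 * k))) = 0) ∧
          deriv G χ = ∑ j ∈ range (2 * k), deriv (fun w => s (z χ j) (z χ ((j + 1) % (2 * k))) w) χ ∧
          G χ = ∑ j ∈ range (2 * k), (Complex.I * cw ls j * z χ j ^ 2 / (4 * π) +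
            Complex.I * z χ j + s (z χ j) (z χ ((j + 1) % (2 * k))) χ)) ∧
        ∀ m : ℝ, (∀ p ∈ ls, m ≤ |(p.1 : ℝ)| ∧ m ≤ |(p.2 : ℝ)|) → 0 < m →
          ‖G 0 - ((4 * k * bet : ℝ) : ℂ)‖ ≤ C' / m

theorem xlc_of (h : S_XL) (h1 : S_POT) (h2 : S_CR) (h3 : S_EL) (h4 : S_MWK3) (h5 : S_KB3) :
    S_XLC := h h1 h2 h3 h4 h5

theorem main3 (hbet : 0 < bet)
    (hEX : ∀ (N : ℕ) (ls : List (ℤ × ℤ)) (m : ℤ), 2 ≤ N → ls ≠ [] →
      ‖Pool.Agent.H550R3.Jones.cjones N 2 (ftw m ++ bw ls) (vN N)‖ =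
      ‖∑ p ∈ range N, deriv (fun χ => wE N m χ * Tf N ls χ) (2 * π * p / N) -
        2 * Complex.I * m * N * ∑ p ∈ range N, wE N m (2 * π * p / N) * Thi N ls p‖)
    (hKF : S_KF)
    (hFAR : ∃ ρs : ℝ, 0 < ρs ∧ ρs ≤ 1 ∧ ∀ ls : List (ℤ × ℤ), ls ≠ [] → FX ρs ls)
    (hXL : S_XLC) (hCHI : S_CHI) (hSD : S_SD3) : S_MAIN3 := by
  obtain ⟨ρ₀, c, C, s, dl, hs⟩ := hSD
  refine ⟨ρ₀, c, C, s, dl, hs, fun k hk => ?_⟩
  obtain ⟨R, c', hR, hR1, hRρ, hc', B, C', M1, hB, hC', hM1, HX⟩ := hXL ρ₀ c C s dl hs k hk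
  obtain ⟨C2, M2, hC2, hM2, HC⟩ := hCHI R c' B (bet / 2) hR hR1 hc' (half_pos hbet)
  obtain ⟨ρs, hρs, -, HF⟩ := hFAR
  have hc1 : 0 < c1 := by have := Real.pi_pos; unfold c1; positivity
  have hk0 : (1 : ℝ) ≤ k := by exact_mod_cast hk
  set μ : ℝ := min (k * c1 * min (R / 8) ρs ^ 2) (bet / 2) with hμ
  have hμ0 : 0 < μ := by positivity
  have hμ1 : μ ≤ bet / 2 := min_le_right _ _
  set M : ℝ := max M1 (max M2 (max (4 * C' / μ) (max (4 * C2 / μ) (10 * C2)))) with hM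
  have m1 : M1 ≤ M := le_max_left _ _
  have m2 : M2 ≤ M := (le_max_left _ _).trans (le_max_right _ _)
  have m3 : 4 * C' / μ ≤ M := (le_max_left _ _).trans ((le_max_right _ _).trans (le_max_right _ _))
  have m4 : 4 * C2 / μ ≤ M := (le_max_left _ _).trans ((le_max_right _ _).trans
    ((le_max_right _ _).trans (le_max_right _ _)))
  have m5 : 10 * C2 ≤ M := (le_max_right _ _).trans ((le_max_right _ _).trans
    ((le_max_right _ _).trans (le_max_right _ _)))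
  have hM0 : 0 < M := lt_of_lt_of_le hM1 m1
  refine ⟨M, fun ls m hlen hls hm => ?_⟩
  have hls0 : ls ≠ [] := by
    rintro rfl
    simp at hlen
    omega
  have hm0 : 0 < |(m : ℝ)| := lt_of_lt_of_le hM0 hm
  obtain ⟨G, z, hGd, hGe, hGb, hMW, hz, hG0⟩ := HX ls hlen
    (fun p hp => ⟨m1.trans (hls p hp).1, m1.trans (hls p hp).2⟩)
  -- the entire functions
  set X : ℕ → ℂ → ℂ := fun N χ => if 2 ≤ N then XN ls N χ else 1 with hX
  have hXN : ∀ N, 2 ≤ N → ∀ χ, X N χ = XN ls N χ := by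
    intro N hN χ
    simp only [hX, if_pos hN]
  have hXNt : ∀ N, 2 ≤ N → ∀ χ, XN ls N χ = (((N : ℂ) / (2 * π)) ^ (2 * ls.length))⁻¹ * Tm N ls χ := by
    intro N hN χ
    have h1 : (N : ℂ) ≠ 0 := by
      have : N ≠ 0 := by omega
      exact_mod_cast this
    have h2 : (π : ℂ) ≠ 0 := by exact_mod_cast Real.pi_ne_zero
    have h3 : ((N : ℂ) / (2 * π)) ^ (2 * ls.length) ≠ 0 :=
      pow_ne_zero _ (div_ne_zero h1 (mul_ne_zero two_ne_zero h2))
    rw [hKF N ls χ hN hls0, inv_mul_cancel_left₀ h3]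
  have hXd : ∀ N, Differentiable ℂ (X N) := by
    intro N
    by_cases hN : 2 ≤ N
    · have : X N = fun χ => (((N : ℂ) / (2 * π)) ^ (2 * ls.length))⁻¹ * Tm N ls χ := by
        funext χ
        rw [hXN N hN, hXNt N hN]
      rw [this]
      exact (differentiable_const _).mul (Tm_diff N ls)
    · have : X N = fun _ => 1 := by
        funext χ
        simp only [hX, if_neg hN]
      rw [this]
      exact differentiable_const _
  have hXe : ∀ N z, X N (-z) = X N z := by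
    intro N w
    by_cases hN : 2 ≤ N
    · rw [hXN N hN, hXN N hN, hXNt N hN, hXNt N hN, Tm_congr N ls (Complex.cos_neg w)]
    · simp only [hX, if_neg hN]
  have hXMW : MW X G (Rc R R) := by
    intro ε hε
    filter_upwards [hMW ε hε, eventually_ge_atTop 2] with N h1 h2 w hw
    rw [hXN N h2]
    exact h1 w hw
  obtain ⟨χ, hχ, hχim, hχn, hχcrit, hχval, hlim⟩ := HC X G hXd hXe hGd hGe hGb hXMW m (m2.trans hm)
  have hχR : χ ∈ Rc R R := ⟨by linarith [hχ.1], by linarith [hχ.2]⟩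
  obtain ⟨hz1, hz2, hz3⟩ := hz χ hχR
  refine ⟨z χ, χ, ⟨⟨by linarith [hχ.1], by linarith [hχ.2]⟩, hχim, ?_, fun j hj => ?_, ?_⟩, ?_⟩
  · refine hχn.trans ?_
    rw [div_le_iff₀ hm0]
    linarith
  · obtain ⟨a1, a2, a3, a4⟩ := hz1 j hj
    exact ⟨⟨by linarith [a1.1], by linarith [a1.2]⟩, a2, a3, a4⟩
  · rw [← hz2]
    exact hχcrit
  -- the limit
  set V : ℝ := (Complex.I * m * χ ^ 2 / (2 * π) + Complex.I * χ + G χ).re with hV
  have hRV : (RVal3 s (2 * k) (cw ls) m (z χ) χ).re = V := by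
    rw [hV]
    congr 1
    unfold RVal3
    rw [← hz3]
    ring
  rw [hRV]
  have hV1 : |V - (G 0).re| ≤ μ / 4 := by
    have h1 : C2 / |(m : ℝ)| ≤ μ / 4 := by
      rw [div_le_div_iff₀ hm0 (by norm_num)]
      have h2 : 4 * C2 ≤ M * μ := by rwa [div_le_iff₀ hμ0] at m4
      nlinarith
    have h2 := Complex.abs_re_le_norm
      (Complex.I * m * χ ^ 2 / (2 * π) + Complex.I * χ + G χ - G 0)
    rw [Complex.sub_re] at h2
    exact h2.trans (hχval.trans h1)
  have hV2 : |(G 0).re - 4 * k * bet| ≤ μ / 4 := by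
    have h1 : C' / M ≤ μ / 4 := by
      rw [div_le_div_iff₀ hM0 (by norm_num)]
      have h2 : 4 * C' ≤ M * μ := by rwa [div_le_iff₀ hμ0] at m3
      nlinarith
    have h2 := Complex.abs_re_le_norm (G 0 - ((4 * k * bet : ℝ) : ℂ))
    rw [Complex.sub_re, Complex.ofReal_re] at h2
    exact h2.trans ((hG0 M hls hM0).trans h1)
  have hVlo : 4 * k * bet - μ / 2 ≤ V := by
    have e1 := (abs_le.1 hV1).1
    have e2 := (abs_le.1 hV2).1
    linarith
  have hVpos : 0 < V := by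
    have : bet ≤ 4 * k * bet := by nlinarith
    linarith
  have hlim2 : Tendsto (fun N : ℕ => Real.log ‖∑ p ∈ Icc (-(⌊R / 4 * N / (2 * π)⌋₊ : ℤ))
      ⌊R / 4 * N / (2 * π)⌋₊, deriv (fun χ => wE N m χ * XN ls N χ) (2 * π * p / N)‖ / N) atTop
        (𝓝 V) := by
    refine hlim.congr' ?_
    filter_upwards [eventually_ge_atTop 2] with N hN
    have : (fun χ => wE N m χ * X N χ) = fun χ => wE N m χ * XN ls N χ := by
      funext w
      rw [hXN N hN]
    rw [this]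
  have hlim3 := poly_fac hVpos (2 * ls.length) hlim2
  obtain ⟨A, hA, herr⟩ := err_bd hbet hρs hls0 (HF ls hls0) hKF hR hR1 m
  have hfin := comb (E := fun N => EN N ls m) hVpos (half_pos (half_pos hμ0)) hlim3 (by
    have hbig : ∀ᶠ N : ℕ in atTop, 384 * A / μ ^ 3 ≤ (N : ℝ) :=
      tendsto_natCast_atTop_atTop.eventually_ge_atTop _
    filter_upwards [herr, hbig, eventually_ge_atTop 1] with N herr hbig hN1
    have hN0 : (0 : ℝ) < N := by exact_mod_cast hN1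
    refine herr.trans ?_
    rw [hlen, ← hμ]
    have h1 : A * N ^ 2 ≤ Real.exp (N * (μ / 4)) := by
      have h2 := Real.pow_div_factorial_le_exp (N * (μ / 4)) (by positivity) 3
      refine le_trans ?_ h2
      have h3 : (Nat.factorial 3 : ℝ) = 6 := by norm_num [Nat.factorial]
      rw [h3, le_div_iff₀ (by norm_num)]
      rw [div_le_iff₀ (by positivity)] at hbig
      have h4 : (N * (μ / 4)) ^ 3 = N ^ 2 * (N * μ ^ 3) / 64 := by ring
      rw [h4]
      have h5 : N ^ 2 * (384 * A) ≤ N ^ 2 * (N * μ ^ 3) := by gcongr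
      linarith
    calc A * N ^ 2 * Real.exp (N * (4 * k * bet - μ))
        ≤ Real.exp (N * (μ / 4)) * Real.exp (N * (4 * k * bet - μ)) := by gcongr
      _ = Real.exp (N * (4 * k * bet - μ / 2 - μ / 4)) := by
          rw [← Real.exp_add]; congr 1; ring
      _ ≤ Real.exp (N * (V - μ / 2 / 2)) := by
          refine Real.exp_le_exp.2 (mul_le_mul_of_nonneg_left ?_ hN0.le)
          linarith)
  refine hfin.congr' ?_
  filter_upwards [eventually_ge_atTop 2] with N hN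
  rw [hEX N ls m hN hls0]
  rfl

end Pool.Agent.Y833.CB
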