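import Pool.Agent.Y472.E.Defs
import Pool.Agent.Y833.CB.Main3

/-!
# CB3-E-MAINY, part 1: auxiliary results
-/

set_option autoImplicit false

namespace Pool.Agent.Y833.CB

open Finset Filter Topology Metric
open Pool.Agent.W711.HT Pool.Agent.Y472
open Pool.Agent.Y481 (cw)
open scoped Real

lemma arsinh_one_le : Real.arsinh 1 ≤ 9 / 10 := by
  rw [← Real.sinh_le_sinh, Real.sinh_arsinh, Real.sinh_eq]
  have h1 : (2.45 : ℝ) ≤ Real.exp (9 / 10) := by
    have := Real.sum_le_exp_of_nonneg (x := (9 / 10 : ℝ)) (by norm_num) 5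
    refine le_trans ?_ this
    norm_num [Finset.sum_range_succ, Nat.factorial]
  have h2 : Real.exp (-(9 / 10)) ≤ 1 / 2.45 := by
    rw [Real.exp_neg, ← one_div]
    exact one_div_le_one_div_of_le (by norm_num) h1
  norm_num at h2 ⊢
  norm_num at h1
  linarith

lemma yk_facts {k : ℕ} (hk : 2 ≤ k) : 0 < yk k ∧ yk k ≤ 9 / 5 ∧
    Real.arctan (Real.sinh (yk k / 2)) = π / (2 * k) := by
  have hπ := Real.pi_pos
  have hk' : (2 : ℝ) ≤ k := by exact_mod_cast hk
  have h0 : 0 < π / (2 * k) := by positivity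
  have h1 : π / (2 * k) ≤ π / 4 := by
    apply div_le_div_of_nonneg_left hπ.le (by norm_num) (by linarith)
  have h2 : π / (2 * k) < π / 2 := by linarith
  have h3 : 0 < Real.tan (π / (2 * k)) := Real.tan_pos_of_pos_of_lt_pi_div_two h0 h2
  have h4 : Real.tan (π / (2 * k)) ≤ 1 := by
    rw [← Real.tan_pi_div_four]
    rcases h1.eq_or_lt with h | h
    · rw [h]
    · exact (Real.tan_lt_tan_of_nonneg_of_lt_pi_div_two h0.le (by linarith) h).le
  unfold yk
  refine ⟨?_, ?_, ?_⟩
  · have : 0 < Real.arsinh (Real.tan (π / (2 * k))) := Real.arsinh_pos_iff.2 h3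
    linarith
  · have : Real.arsinh (Real.tan (π / (2 * k))) ≤ Real.arsinh 1 := Real.arsinh_le_arsinh.2 h4
    have := arsinh_one_le
    linarith
  · rw [mul_div_cancel_left₀ _ (two_ne_zero), Real.sinh_arsinh, Real.arctan_tan (by linarith) h2]

/-- zeros of a function whose derivative has negative real part -/
lemma zero_near {g : ℂ → ℂ} {R r c : ℝ} (hr : 0 < r) (hrR : r < R) (hc : 0 < c)
    (hg : DifferentiableOn ℂ g (Rc R R)) (hd : ∀ w ∈ Rc R R, (deriv g w).re ≤ -c)
    (h0 : ‖g 0‖ < c * r / 2) : ∃ z : ℂ, ‖z‖ ≤ r ∧ g z = 0 := by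
  have hopen : IsOpen (Rc R R) := by
    have h1 : Rc R R = {z : ℂ | |z.re| < R} ∩ {z : ℂ | |z.im| < R} := rfl
    rw [h1]
    exact (isOpen_lt (Complex.continuous_re.abs) continuous_const).inter
      (isOpen_lt (Complex.continuous_im.abs) continuous_const)
  have hball : ∀ w : ℂ, ‖w‖ ≤ r → w ∈ Rc R R := fun w hw =>
    ⟨((Complex.abs_re_le_norm w).trans hw).trans_lt hrR,
      ((Complex.abs_im_le_norm w).trans hw).trans_lt hrR⟩
  have hda : ∀ w ∈ Rc R R, HasDerivAt g (deriv g w) w := fun w hw =>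
    ((hg w hw).differentiableAt (hopen.mem_nhds hw)).hasDerivAt
  -- lower bound of the differences
  have hlow : ∀ w : ℂ, ‖w‖ ≤ r → c * ‖w‖ ≤ ‖g w - g 0‖ := by
    intro w hw
    rcases eq_or_ne w 0 with rfl | hw0
    · simp
    have hwp : 0 < ‖w‖ := norm_pos_iff.2 hw0
    set ψ : ℝ → ℝ := fun t => ((starRingEnd ℂ) w * (g (t * w) - g 0)).re with hψ
    have hmem : ∀ t ∈ Set.Icc (0:ℝ) 1, ((t : ℂ) * w) ∈ Rc R R := by
      intro t ht
      apply hball
      rw [norm_mul, Complex.norm_real, Real.norm_eq_abs, abs_of_nonneg ht.1]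
      calc t * ‖w‖ ≤ 1 * ‖w‖ := by gcongr; exact ht.2
        _ ≤ r := by rw [one_mul]; exact hw
    have hder : ∀ t ∈ Set.Icc (0:ℝ) 1, HasDerivAt ψ (((starRingEnd ℂ) w * (deriv g (t * w) * w)).re) t := by
      intro t ht
      have e1 : HasDerivAt (fun s : ℝ => (s : ℂ) * w) w t := by
        have := (Complex.ofRealCLM.hasDerivAt (x := t)).mul_const w
        simpa using this
      have e2 := (hda _ (hmem t ht)).comp_of_eq t e1 rfl
      have e3 : HasDerivAt (fun s : ℝ => g ((s : ℂ) * w) - g 0) (deriv g (t * w) * w) t :=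
        e2.sub_const _
      have e4 := e3.const_mul ((starRingEnd ℂ) w)
      exact (Complex.reCLM.hasFDerivAt.comp_hasDerivAt t e4)
    have hval : ∀ t ∈ Set.Icc (0:ℝ) 1, (((starRingEnd ℂ) w * (deriv g (t * w) * w)).re) ≤
        -c * ‖w‖ ^ 2 := by
      intro t ht
      have e1 : (starRingEnd ℂ) w * (deriv g (t * w) * w) =
          ((‖w‖ ^ 2 : ℝ) : ℂ) * deriv g (t * w) := by
        rw [← Complex.normSq_eq_norm_sq, ← Complex.mul_conj]; ring
      rw [e1, Complex.re_ofReal_mul]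
      have := mul_le_mul_of_nonneg_left (hd _ (hmem t ht)) (sq_nonneg ‖w‖)
      linarith
    have hmv : ψ 1 - ψ 0 ≤ -c * ‖w‖ ^ 2 * (1 - 0) := by
      refine Convex.image_sub_le_mul_sub_of_deriv_le (convex_Icc (0:ℝ) 1) ?_ ?_ ?_ 0
        (by simp) 1 (by simp) (by norm_num)
      · exact fun t ht => (hder t ht).continuousAt.continuousWithinAt
      · exact fun t ht => (hder t (interior_subset ht)).differentiableAt.differentiableWithinAt
      · intro t ht
        rw [(hder t (interior_subset ht)).deriv]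
        exact hval t (interior_subset ht)
    have e0 : ψ 0 = 0 := by simp only [hψ]; simp
    have e1 : ψ 1 = ((starRingEnd ℂ) w * (g w - g 0)).re := by simp only [hψ]; simp
    rw [e0, e1] at hmv
    have e2 := Complex.abs_re_le_norm ((starRingEnd ℂ) w * (g w - g 0))
    rw [norm_mul, RCLike.norm_conj] at e2
    have e3 := (abs_le.1 e2).1
    have e4 : c * ‖w‖ * ‖w‖ ≤ ‖g w - g 0‖ * ‖w‖ := by nlinarith
    exact le_of_mul_le_mul_right e4 hwp
  have hcl : DiffContOnCl ℂ g (ball 0 r) := by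
    refine DifferentiableOn.diffContOnCl ?_
    rw [closure_ball _ hr.ne']
    refine hg.mono fun w hw => hball w ?_
    rwa [mem_closedBall_zero_iff] at hw
  have hfr : ∃ᶠ z in 𝓝 (0 : ℂ), g z ≠ g 0 := by
    rw [Filter.frequently_iff]
    intro U hU
    obtain ⟨ε, hε, hsub⟩ := Metric.mem_nhds_iff.1 hU
    set t : ℝ := min (ε / 2) r with ht
    have ht0 : 0 < t := by positivity
    refine ⟨(t : ℂ), hsub ?_, ?_⟩
    · rw [mem_ball_zero_iff, Complex.norm_real, Real.norm_eq_abs, abs_of_pos ht0]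
      have : t ≤ ε / 2 := min_le_left _ _
      linarith
    · intro h
      have h1 := hlow (t : ℂ) (by
        rw [Complex.norm_real, Real.norm_eq_abs, abs_of_pos ht0]; exact min_le_right _ _)
      rw [h, sub_self, norm_zero, Complex.norm_real, Real.norm_eq_abs, abs_of_pos ht0] at h1
      have : 0 < c * t := by positivity
      linarith
  have himg := hcl.ball_subset_image_closedBall hr (ε := c * r) (fun w hw => by
    rw [mem_sphere_zero_iff_norm] at hw
    have := hlow w hw.le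
    rwa [hw] at this) hfr
  have h0m : (0 : ℂ) ∈ ball (g 0) (c * r / 2) := by
    rw [mem_ball, dist_comm, dist_zero_right]; exact h0
  obtain ⟨z, hz, hgz⟩ := himg h0m
  refine ⟨z, ?_, hgz⟩
  rwa [mem_closedBall_zero_iff] at hz

/-- asymptotics are not changed by polynomial factors and by small errors -/
lemma MW_tf {X T : ℕ → ℂ → ℂ} {G : ℂ → ℂ} {U : Set ℂ} (j : ℕ) {L δ : ℝ} (hδ : 0 < δ)
    (hX : MW X G U) (hG : ∀ w ∈ U, L ≤ (G w).re)
    (hT : ∀ᶠ N : ℕ in atTop, ∀ w ∈ U,
      ‖T N w - ((N : ℂ) / (2 * π)) ^ j * X N w‖ ≤ Real.exp (N * (L - δ))) : MW T G U := by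
  intro ε hε
  set η : ℝ := min (ε / 4) (δ / 4) with hη
  have hη0 : 0 < η := by positivity
  have hη1 : η ≤ ε / 4 := min_le_left _ _
  have hη2 : η ≤ δ / 4 := min_le_right _ _
  have hπ := Real.pi_pos
  have h1 : Tendsto (fun N : ℕ => (j : ℝ) * (Real.log N / N - Real.log (2 * π) / N)) atTop (𝓝 0) := by
    have h1 : Tendsto (fun N : ℕ => Real.log N / (N : ℝ)) atTop (𝓝 0) :=
      (Real.isLittleO_log_id_atTop.tendsto_div_nhds_zero).comp
        (tendsto_natCast_atTop_atTop (R := ℝ))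
    have h2 : Tendsto (fun N : ℕ => Real.log (2 * π) / (N : ℝ)) atTop (𝓝 0) :=
      tendsto_const_div_atTop_nhds_zero_nat _
    have := (h1.sub h2).const_mul (j : ℝ)
    simpa using this
  have h2 : ∀ᶠ N : ℕ in atTop, 1 / η ≤ (N : ℝ) :=
    tendsto_natCast_atTop_atTop.eventually_ge_atTop _
  filter_upwards [hX η hη0, hT, (Metric.tendsto_nhds.1 h1) η hη0, h2, eventually_ge_atTop 1] with
    N hX hT hP h2 hN w hw
  have hN0 : (0 : ℝ) < N := by exact_mod_cast hN
  have h3 : 1 ≤ N * η := by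
    rw [div_le_iff₀ hη0] at h2; linarith
  obtain ⟨x0, x1⟩ := hX w hw
  have hT := hT w hw
  have hPn : ‖((N : ℂ) / (2 * π)) ^ j‖ = ((N : ℝ) / (2 * π)) ^ j := by
    rw [norm_pow, norm_div, norm_mul, Complex.norm_natCast, Complex.norm_real, Real.norm_eq_abs,
      abs_of_pos hπ]
    simp
  have hPp : 0 < ((N : ℝ) / (2 * π)) ^ j := by positivity
  have hlogP : |Real.log (((N : ℝ) / (2 * π)) ^ j)| ≤ η * N := by
    rw [Real.log_pow, Real.log_div (by positivity) (by positivity)]
    rw [Real.dist_eq, sub_zero] at hP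
    have e1 : (j : ℝ) * (Real.log N - Real.log (2 * π)) =
        ((j : ℝ) * (Real.log N / N - Real.log (2 * π) / N)) * N := by
      field_simp
    rw [e1, abs_mul, abs_of_pos hN0]
    gcongr
  set t0 := ‖((N : ℂ) / (2 * π)) ^ j * X N w‖ with ht0
  have hxn : 0 < ‖X N w‖ := norm_pos_iff.2 x0
  have ht0e : t0 = ((N : ℝ) / (2 * π)) ^ j * ‖X N w‖ := by rw [ht0, norm_mul, hPn]
  have ht0p : 0 < t0 := by rw [ht0e]; positivity
  have hlogt : |Real.log t0 - N * (G w).re| ≤ 2 * η * N := by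
    rw [ht0e, Real.log_mul hPp.ne' hxn.ne']
    have e1 : Real.log (((N : ℝ) / (2 * π)) ^ j) + Real.log ‖X N w‖ - N * (G w).re =
        Real.log (((N : ℝ) / (2 * π)) ^ j) + (Real.log ‖X N w‖ - N * (G w).re) := by ring
    rw [e1]
    refine (abs_add_le _ _).trans ?_
    linarith
  -- the error is small
  have hG := hG w hw
  have hsm : Real.exp (N * (L - δ)) ≤ t0 * (1 / 2) := by
    have e1 : (L - 2 * η) * N ≤ Real.log t0 := by
      have := (abs_le.1 hlogt).1
      have : N * L ≤ N * (G w).re := mul_le_mul_of_nonneg_left hG hN0.le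
      linarith
    have e2 : Real.exp ((L - 2 * η) * N) ≤ t0 := by
      rw [← Real.le_log_iff_exp_le ht0p]; exact e1
    have e3 : Real.exp (N * (L - δ)) ≤ Real.exp ((L - 2 * η) * N) * Real.exp (-(2 * η * N)) := by
      rw [← Real.exp_add]
      refine Real.exp_le_exp.2 ?_
      have : N * (4 * η) ≤ N * δ := by gcongr; linarith
      linarith
    have e4 : Real.exp (-(2 * η * N)) ≤ 1 / 2 := by
      rw [Real.exp_neg, ← one_div]
      refine one_div_le_one_div_of_le (by norm_num) ?_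
      have := Real.add_one_le_exp (2 * η * N)
      linarith
    calc Real.exp (N * (L - δ)) ≤ Real.exp ((L - 2 * η) * N) * Real.exp (-(2 * η * N)) := e3
      _ ≤ t0 * (1 / 2) := by gcongr
  have hd : ‖T N w - ((N : ℂ) / (2 * π)) ^ j * X N w‖ ≤ t0 * (1 / 2) := hT.trans hsm
  have hlo : t0 * (1 / 2) ≤ ‖T N w‖ := by
    have e1 := norm_sub_norm_le (((N : ℂ) / (2 * π)) ^ j * X N w) (T N w)
    rw [norm_sub_rev, ← ht0] at e1
    linarith
  have hup : ‖T N w‖ ≤ t0 * 2 := by
    have e1 := norm_add_le (((N : ℂ) / (2 * π)) ^ j * X N w)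
      (T N w - ((N : ℂ) / (2 * π)) ^ j * X N w)
    rw [add_sub_cancel, ← ht0] at e1
    linarith
  have hTp : 0 < ‖T N w‖ := lt_of_lt_of_le (by positivity) hlo
  refine ⟨norm_pos_iff.1 hTp, ?_⟩
  have l2 : Real.log 2 ≤ 1 := by
    have := Real.log_two_lt_d9
    linarith
  have l1 : Real.log t0 - Real.log 2 ≤ Real.log ‖T N w‖ := by
    rw [← Real.log_div ht0p.ne' (by norm_num)]
    refine Real.log_le_log (by positivity) ?_
    linarith
  have l3 : Real.log ‖T N w‖ ≤ Real.log t0 + Real.log 2 := by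
    rw [← Real.log_mul ht0p.ne' (by norm_num)]
    exact Real.log_le_log hTp hup
  have h5 : 4 * η * N ≤ ε * N := by gcongr; linarith
  have h6 := abs_le.1 hlogt
  rw [abs_le]
  constructor <;> linarith [h6.1, h6.2]

/-- the derivatives of close functions -/
lemma deriv_close {F G : ℂ → ℂ} {R η : ℝ} (hR : 0 < R) (hF : DifferentiableOn ℂ F (Rc R R))
    (hG : DifferentiableOn ℂ G (Rc R R)) (h : ∀ w ∈ Rc R R, ‖F w - G w‖ ≤ η) :
    ‖deriv F 0 - deriv G 0‖ ≤ η / (R / 2) := by
  have hopen : IsOpen (Rc R R) := by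
    have h1 : Rc R R = {z : ℂ | |z.re| < R} ∩ {z : ℂ | |z.im| < R} := rfl
    rw [h1]
    exact (isOpen_lt (Complex.continuous_re.abs) continuous_const).inter
      (isOpen_lt (Complex.continuous_im.abs) continuous_const)
  have hball : ∀ w : ℂ, ‖w‖ ≤ R / 2 → w ∈ Rc R R := fun w hw =>
    ⟨((Complex.abs_re_le_norm w).trans hw).trans_lt (by linarith),
      ((Complex.abs_im_le_norm w).trans hw).trans_lt (by linarith)⟩
  have h0 : (0 : ℂ) ∈ Rc R R := hball 0 (by rw [norm_zero]; positivity)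
  have e1 : deriv (fun w => F w - G w) 0 = deriv F 0 - deriv G 0 :=
    deriv_fun_sub ((hF 0 h0).differentiableAt (hopen.mem_nhds h0))
      ((hG 0 h0).differentiableAt (hopen.mem_nhds h0))
  rw [← e1]
  refine Complex.norm_deriv_le_of_forall_mem_sphere_norm_le (by positivity) ?_ fun z hz => ?_
  · refine DifferentiableOn.diffContOnCl ?_
    rw [closure_ball _ (by positivity)]
    refine (hF.sub hG).mono fun w hw => hball w ?_
    rwa [mem_closedBall_zero_iff] at hw
  · refine h z (hball z ?_)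
    rw [mem_sphere_zero_iff_norm] at hz
    exact hz.le

end Pool.Agent.Y833.CB
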