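import Pool.Agent.Y833.CB.Mn1

/-!
# CB3-MAIN3, part 2: the error terms
-/

set_option autoImplicit false

namespace Pool.Agent.Y833.CB

open Finset Filter Topology Metric
open Pool.Agent.W711.HT Pool.Agent.Y472
open scoped Real

/-- the exact sum -/
noncomputable def EN (N : ℕ) (ls : List (ℤ × ℤ)) (m : ℤ) : ℂ :=
  ∑ p ∈ range N, deriv (fun χ => wE N m χ * Tf N ls χ) (2 * π * p / N) -
      2 * Complex.I * m * N * ∑ p ∈ range N, wE N m (2 * π * p / N) * Thi N ls p

/-- representatives in `[-N/2, N/2)` -/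
def rp (N p : ℕ) : ℤ := if 2 * p < N then p else (p : ℤ) - N

/-- the errors from the blocks -/
noncomputable def rN (N : ℕ) (ls : List (ℤ × ℤ)) (m : ℤ) (p : ℕ) : ℂ :=
  if 2 * p < N then -(2 * Complex.I * m * N * (wE N m (2 * π * p / N) * Thi N ls p))
  else 2 * Complex.I * m * N * (wE N m (2 * π * p / N) * (Tf N ls (2 * π * p / N) - Thi N ls p))

/-- the main terms -/
noncomputable def gN (N : ℕ) (ls : List (ℤ × ℤ)) (m : ℤ) (q : ℤ) : ℂ :=
  deriv (fun χ => wE N m χ * Tf N ls χ) (2 * π * q / N)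

lemma EN_eq (N : ℕ) (hN : 0 < N) (ls : List (ℤ × ℤ)) (m : ℤ) :
    EN N ls m = ∑ p ∈ range N, gN N ls m (rp N p) + ∑ p ∈ range N, rN N ls m p := by
  have hN' : (N : ℂ) ≠ 0 := by exact_mod_cast hN.ne'
  unfold EN
  rw [mul_sum, ← sum_sub_distrib, ← sum_add_distrib]
  refine sum_congr rfl fun p _ => ?_
  unfold gN rN rp
  split_ifs with h
  · rw [Int.cast_natCast]
    ring
  · have h1 := F_deriv N hN ls m ((p : ℤ) - N)
    have h2 : (2 * π * (((p : ℤ) - N : ℤ) : ℂ) / N + 2 * π : ℂ) = 2 * π * p / N := by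
      push_cast
      field_simp
      ring
    rw [h2] at h1
    rw [h1]
    ring

lemma sum_near (N P : ℕ) (hP : 2 * P < N) (g : ℤ → ℂ) :
    ∑ p ∈ (range N).filter (fun p => |rp N p| ≤ (P : ℤ)), g (rp N p) =
      ∑ q ∈ Icc (-(P : ℤ)) P, g q := by
  refine Finset.sum_nbij' (fun p => rp N p) (fun q => if 0 ≤ q then q.toNat else (q + N).toNat)
    ?_ ?_ ?_ ?_ ?_
  · intro p hp
    rw [mem_filter, mem_range, abs_le] at hp
    rw [mem_Icc]
    exact hp.2
  · intro q hq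
    rw [mem_Icc] at hq
    rw [mem_filter, mem_range, abs_le]
    unfold rp
    split_ifs <;> omega
  · intro p hp
    rw [mem_filter, mem_range, abs_le] at hp
    unfold rp at hp ⊢
    split_ifs at hp ⊢ <;> omega
  · intro q hq
    rw [mem_Icc] at hq
    unfold rp
    split_ifs <;> omega
  · intro p _
    rfl

/-- the conclusion of FARX for the word `ls` -/
def FX (ρs : ℝ) (ls : List (ℤ × ℤ)) : Prop := ∃ τ : ℝ, 0 < τ ∧
  (∀ᶠ N : ℕ in atTop, ∀ χ : ℂ, |χ.re| ≤ π → |χ.im| ≤ τ →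
    ‖Tf N ls χ - Tm N ls χ‖ ≤ Real.exp (N * ((4 * ls.length - 1 / 2) * bet))) ∧
  (∀ ε : ℝ, 0 < ε → ∃ τ' : ℝ, 0 < τ' ∧ ∀ᶠ N : ℕ in atTop, ∀ χ : ℂ, |χ.re| ≤ π → |χ.im| ≤ τ' →
    ‖Tf N ls χ‖ ≤ Real.exp (N * (4 * ls.length * bet - 2 * ls.length * c1 * min |χ.re| ρs ^ 2 + ε))) ∧
  (∀ᶠ N : ℕ in atTop, ∀ p < N,
    (2 * p ≤ N → ‖Thi N ls p‖ ≤ Real.exp (N * ((4 * ls.length - 1 / 2) * bet))) ∧
    (N ≤ 2 * p → ‖Tf N ls (2 * π * p / N) - Thi N ls p‖ ≤
      Real.exp (N * ((4 * ls.length - 1 / 2) * bet))))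

lemma re_chi (q : ℝ) (N : ℕ) : ((2 * π * q / N : ℂ)) = ((2 * π * q / N : ℝ) : ℂ) := by
  push_cast
  rfl

lemma near_pt {x r : ℝ} {w : ℂ} (h : ‖w - (x : ℂ)‖ = r) : |w.re - x| ≤ r ∧ |w.im| ≤ r := by
  refine ⟨?_, ?_⟩
  · have := Complex.abs_re_le_norm (w - (x : ℂ))
    rw [h] at this
    simpa using this
  · have := Complex.abs_im_le_norm (w - (x : ℂ))
    rw [h] at this
    simpa using this

/-- the bound of `Tf` away from the origin -/
lemma far_T {N : ℕ} {ls : List (ℤ × ℤ)} {ρs R τ' E κ : ℝ} (hN : 1 ≤ N) (hκ : 0 ≤ κ) (hρs : 0 < ρs)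
    (hR : 0 < R) (hR1 : R ≤ 1) (hNR : 1 / (N : ℝ) ≤ R / 8) (hNτ : 1 / (N : ℝ) ≤ τ')
    (h : ∀ χ : ℂ, |χ.re| ≤ π → |χ.im| ≤ τ' →
      ‖Tf N ls χ‖ ≤ Real.exp (N * (E - κ * min |χ.re| ρs ^ 2)))
    {x : ℝ} (hx : R / 4 ≤ |x|) (hx1 : |x| ≤ π) {w : ℂ} (hw : ‖w - (x : ℂ)‖ = 1 / N) :
    ‖Tf N ls w‖ ≤ Real.exp (N * (E - κ * min (R / 8) ρs ^ 2)) := by
  have hπ := Real.pi_gt_three
  obtain ⟨h1, h2⟩ := near_pt hw
  have key : ∀ v : ℂ, |v.re| ≤ π → |v.im| ≤ τ' → R / 8 ≤ |v.re| →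
      ‖Tf N ls v‖ ≤ Real.exp (N * (E - κ * min (R / 8) ρs ^ 2)) := by
    intro v hv1 hv2 hv3
    refine (h v hv1 hv2).trans (Real.exp_le_exp.2 ?_)
    have h3 : min (R / 8) ρs ^ 2 ≤ min |v.re| ρs ^ 2 := by
      have : 0 ≤ min (R / 8) ρs := by positivity
      gcongr
    gcongr
  have h3 : |x| ≤ |w.re| + 1 / N := by
    have := abs_sub_abs_le_abs_sub x w.re
    rw [abs_sub_comm] at this
    linarith
  have h4 : |w.re| ≤ |x| + 1 / N := by
    have := abs_sub_abs_le_abs_sub w.re x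
    linarith
  have hN1 : 1 / (N : ℝ) ≤ 1 / 8 := hNR.trans (by linarith)
  rcases le_or_gt |w.re| π with hc | hc
  · exact key w hc (h2.trans hNτ) (by linarith)
  · rcases le_or_gt 0 w.re with h0 | h0
    · rw [abs_of_nonneg h0] at hc h4
      have e1 : Tf N ls w = Tf N ls (w - 2 * π) := Tf_congr N ls (Complex.cos_sub_two_pi w).symm
      have e2 : (w - 2 * π : ℂ).re = w.re - 2 * π := by simp
      have e3 : (w - 2 * π : ℂ).im = w.im := by simp
      rw [e1]
      refine key _ ?_ ?_ ?_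
      · rw [e2, abs_le]; constructor <;> linarith
      · rw [e3]; exact h2.trans hNτ
      · rw [e2, abs_of_nonpos (by linarith)]; linarith
    · rw [abs_of_neg h0] at hc h4
      have e1 : Tf N ls w = Tf N ls (w + 2 * π) := Tf_congr N ls (Complex.cos_add_two_pi w).symm
      have e2 : (w + 2 * π : ℂ).re = w.re + 2 * π := by simp
      have e3 : (w + 2 * π : ℂ).im = w.im := by simp
      rw [e1]
      refine key _ ?_ ?_ ?_
      · rw [e2, abs_le]; constructor <;> linarith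
      · rw [e3]; exact h2.trans hNτ
      · rw [e2, abs_of_nonneg (by linarith)]; linarith

lemma err_bd (hbet : 0 < bet) {ρs : ℝ} (hρs : 0 < ρs) {ls : List (ℤ × ℤ)} (hls : ls ≠ [])
    (hF : FX ρs ls) (hKF : S_KF) {R : ℝ} (hR : 0 < R) (hR1 : R ≤ 1) (m : ℤ) :
    ∃ A : ℝ, 0 < A ∧ ∀ᶠ N : ℕ in atTop,
      ‖EN N ls m - ((N : ℂ) / (2 * π)) ^ (2 * ls.length) *
        ∑ p ∈ Icc (-(⌊R / 4 * N / (2 * π)⌋₊ : ℤ)) ⌊R / 4 * N / (2 * π)⌋₊,
          deriv (fun χ => wE N m χ * XN ls N χ) (2 * π * p / N)‖ ≤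
      A * N ^ 2 * Real.exp (N * (4 * ls.length * bet -
        min (ls.length * c1 * min (R / 8) ρs ^ 2) (bet / 2))) := by
  obtain ⟨τ, hτ, F1, F2, F3⟩ := hF
  have hπ := Real.pi_gt_three
  have hc1 : 0 < c1 := by unfold c1; positivity
  have hk : 0 < (ls.length : ℝ) := by
    have := List.length_pos_of_ne_nil hls
    exact_mod_cast this
  set κ : ℝ := ls.length * c1 * min (R / 8) ρs ^ 2 with hκ
  have hκ0 : 0 < κ := by positivity
  obtain ⟨τ', hτ', F2⟩ := F2 κ hκ0
  set μ := min κ (bet / 2) with hμ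
  set K : ℝ := 4 * ls.length * bet with hK
  set W : ℝ := Real.exp (1 + 2 * |(m : ℝ)|) with hW
  have hW0 : 0 < W := Real.exp_pos _
  refine ⟨2 * |(m : ℝ)| * W + W + W, by positivity, ?_⟩
  have t1 : ∀ᶠ N : ℕ in atTop, 1 / (N : ℝ) ≤ min (R / 8) (min τ τ') := by
    have := tendsto_one_div_atTop_nhds_zero_nat (𝕜 := ℝ)
    exact (this.eventually_lt_const (u := min (R / 8) (min τ τ')) (by positivity)).mono
      fun N hN => hN.le
  filter_upwards [F1, F2, F3, t1, eventually_ge_atTop 2] with N F1 F2 F3 t1 hN2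
  have hN0 : 0 < N := by omega
  have hN' : (0 : ℝ) < N := by exact_mod_cast hN0
  have hN1 : (1 : ℝ) ≤ N := by exact_mod_cast hN0
  have tR : 1 / (N : ℝ) ≤ R / 8 := t1.trans (min_le_left _ _)
  have tτ : 1 / (N : ℝ) ≤ τ := t1.trans ((min_le_right _ _).trans (min_le_left _ _))
  have tτ' : 1 / (N : ℝ) ≤ τ' := t1.trans ((min_le_right _ _).trans (min_le_right _ _))
  set P : ℕ := ⌊R / 4 * N / (2 * π)⌋₊ with hP
  have hPle : (P : ℝ) ≤ R / 4 * N / (2 * π) := Nat.floor_le (by positivity)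
  have hPgt : R / 4 * N / (2 * π) < P + 1 := Nat.lt_floor_add_one _
  have hP2 : 2 * P < N := by
    have h1 : (2 * P : ℝ) < N := by
      have h2 : R / 4 * N / (2 * π) ≤ N / 24 := by
        rw [div_le_div_iff₀ (by positivity) (by norm_num)]
        nlinarith
      linarith
    exact_mod_cast h1
  -- the small exponentials
  set E1 : ℝ := Real.exp (N * ((4 * ls.length - 1 / 2) * bet)) with hE1
  set E2 : ℝ := Real.exp (N * (K - κ)) with hE2
  set E3 : ℝ := Real.exp (N * (K - μ)) with hE3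
  have hE13 : E1 ≤ E3 := by
    refine Real.exp_le_exp.2 (mul_le_mul_of_nonneg_left ?_ hN'.le)
    have : μ ≤ bet / 2 := min_le_right _ _
    rw [hK]; linarith
  have hE23 : E2 ≤ E3 := by
    refine Real.exp_le_exp.2 (mul_le_mul_of_nonneg_left ?_ hN'.le)
    have : μ ≤ κ := min_le_left _ _
    linarith
  -- the decomposition
  rw [EN_eq N hN0, ← sum_filter_add_sum_filter_not (range N) (fun p => |rp N p| ≤ (P : ℤ)),
    sum_near N P hP2]
  have hdec : (∑ q ∈ Icc (-(P : ℤ)) P, gN N ls m q + ∑ p ∈ (range N).filter (fun p => ¬ |rp N p| ≤ (P : ℤ)),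
      gN N ls m (rp N p) + ∑ p ∈ range N, rN N ls m p) - ((N : ℂ) / (2 * π)) ^ (2 * ls.length) *
        ∑ p ∈ Icc (-(P : ℤ)) P, deriv (fun χ => wE N m χ * XN ls N χ) (2 * π * p / N) =
      ∑ p ∈ range N, rN N ls m p + ∑ p ∈ (range N).filter (fun p => ¬ |rp N p| ≤ (P : ℤ)),
      gN N ls m (rp N p) + ∑ q ∈ Icc (-(P : ℤ)) P, (gN N ls m q - ((N : ℂ) / (2 * π)) ^ (2 * ls.length) *
        deriv (fun χ => wE N m χ * XN ls N χ) (2 * π * q / N)) := by
    rw [sum_sub_distrib, mul_sum]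
    ring
  rw [hdec]
  -- first error
  have hchi : ∀ p : ℕ, p < N → |(2 * π * p / N : ℂ).re| ≤ 2 * π ∧ |(2 * π * p / N : ℂ).im| ≤ 1 / N := by
    intro p hp
    have e := re_chi p N
    push_cast at e
    rw [e]
    have e2 : ((2 : ℂ) * π * p / N) = ((2 * π * p / N : ℝ) : ℂ) := by push_cast; rfl
    rw [e2, Complex.ofReal_re, Complex.ofReal_im, abs_zero]
    refine ⟨?_, by positivity⟩
    rw [abs_of_nonneg (by positivity), div_le_iff₀ hN']
    have : (p : ℝ) ≤ N := by exact_mod_cast hp.le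
    have := Real.pi_pos
    gcongr
  have hr : ∀ p ∈ range N, ‖rN N ls m p‖ ≤ 2 * |(m : ℝ)| * W * N * E3 := by
    intro p hp
    rw [mem_range] at hp
    have hwp := wE_bd N (by omega) m _ (hchi p hp).1 (hchi p hp).2
    have gen : ∀ t : ℂ, ‖t‖ ≤ E1 → ‖2 * Complex.I * m * N * (wE N m (2 * π * p / N) * t)‖ ≤
        2 * |(m : ℝ)| * W * N * E3 := by
      intro t ht
      have e : ‖2 * Complex.I * m * N * (wE N m (2 * π * p / N) * t)‖ =
          2 * |(m : ℝ)| * N * (‖wE N m (2 * π * p / N)‖ * ‖t‖) := by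
        rw [norm_mul, norm_mul, norm_mul, norm_mul, norm_mul, Complex.norm_I, Complex.norm_intCast]
        simp
      rw [e]
      have : ‖wE N m (2 * π * p / N)‖ * ‖t‖ ≤ W * E3 :=
        mul_le_mul hwp (ht.trans hE13) (norm_nonneg _) hW0.le
      calc 2 * |(m : ℝ)| * N * (‖wE N m (2 * π * p / N)‖ * ‖t‖) ≤ 2 * |(m : ℝ)| * N * (W * E3) := by
            gcongr
        _ = _ := by ring
    unfold rN
    split_ifs with h
    · rw [norm_neg]
      exact gen _ ((F3 p hp).1 (by omega))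
    · exact gen _ ((F3 p hp).2 (by omega))
  have hs1 : ‖∑ p ∈ range N, rN N ls m p‖ ≤ 2 * |(m : ℝ)| * W * N ^ 2 * E3 := by
    refine (norm_sum_le_of_le _ hr).trans ?_
    rw [sum_const, card_range, nsmul_eq_mul]
    apply le_of_eq
    ring
  -- Cauchy on circles
  have hw2 : ∀ (x : ℝ) (w : ℂ), |x| ≤ π → ‖w - (x : ℂ)‖ = 1 / N → ‖wE N m w‖ ≤ W := by
    intro x w hx hw
    obtain ⟨h1, h2⟩ := near_pt hw
    refine wE_bd N (by omega) m w ?_ h2
    have h4 : |w.re| ≤ |x| + 1 / N := by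
      have := abs_sub_abs_le_abs_sub w.re x
      linarith
    linarith
  -- second error
  have hs2 : ‖∑ p ∈ (range N).filter (fun p => ¬ |rp N p| ≤ (P : ℤ)), gN N ls m (rp N p)‖ ≤
      W * N ^ 2 * E3 := by
    have hg : ∀ p ∈ (range N).filter (fun p => ¬ |rp N p| ≤ (P : ℤ)), ‖gN N ls m (rp N p)‖ ≤
        W * N * E3 := by
      intro p hp
      rw [mem_filter, mem_range] at hp
      obtain ⟨hp1, hp2⟩ := hp
      have hq1 : (P : ℤ) + 1 ≤ |rp N p| := by omega
      have hq2 : 2 * |rp N p| ≤ N := by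
        unfold rp
        split_ifs with h
        · rw [abs_of_nonneg (by omega)]; omega
        · rw [abs_of_neg (by omega)]; omega
      set x : ℝ := 2 * π * (rp N p : ℝ) / N with hx
      have hxc : (2 * π * ((rp N p : ℤ) : ℂ) / N : ℂ) = (x : ℂ) := by rw [hx]; push_cast; rfl
      have hqr1 : ((P : ℝ) + 1) ≤ |(rp N p : ℝ)| := by exact_mod_cast hq1
      have hqr2 : 2 * |(rp N p : ℝ)| ≤ N := by exact_mod_cast hq2
      have hxa : |x| = 2 * π * |(rp N p : ℝ)| / N := by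
        rw [hx, abs_div, abs_mul, abs_of_pos (by positivity : (0 : ℝ) < 2 * π), abs_of_pos hN']
      have hx1 : |x| ≤ π := by
        rw [hxa, div_le_iff₀ hN']
        nlinarith
      have hx2 : R / 4 ≤ |x| := by
        rw [hxa, le_div_iff₀ hN']
        have h6 : R / 4 * N / (2 * π) ≤ |(rp N p : ℝ)| := by linarith
        rw [div_le_iff₀ (by positivity)] at h6
        linarith
      unfold gN
      rw [hxc]
      have h7 : ∀ w, ‖w - (x : ℂ)‖ = 1 / (N : ℝ) → ‖wE N m w * Tf N ls w‖ ≤ W * E2 := by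
        intro w hw
        rw [norm_mul]
        refine mul_le_mul (hw2 x w hx1 hw) ?_ (norm_nonneg _) hW0.le
        have h8 := far_T (E := K + κ) (κ := 2 * ls.length * c1) (by omega : 1 ≤ N) (by positivity)
          hρs hR hR1 tR tτ' (fun χ a b => (F2 χ a b).trans (le_of_eq (by congr 2; ring))) hx2 hx1 hw
        refine h8.trans (le_of_eq ?_)
        rw [hE2]
        congr 2
        rw [hκ]
        ring
      have h9 := cauchy ((wE_diff N m).mul (Tf_diff N ls)) (x : ℂ) (one_div_pos.2 hN') h7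
      refine h9.trans ?_
      rw [div_div_eq_mul_div, div_one]
      have : W * E2 * N ≤ W * E3 * N := by gcongr
      linarith
    refine (norm_sum_le_of_le _ hg).trans ?_
    rw [sum_const, nsmul_eq_mul]
    have hcard : (((range N).filter (fun p => ¬ |rp N p| ≤ (P : ℤ))).card : ℝ) ≤ N := by
      have := card_filter_le (range N) (fun p => ¬ |rp N p| ≤ (P : ℤ))
      rw [card_range] at this
      exact_mod_cast this
    calc _ ≤ (N : ℝ) * (W * N * E3) := by
          have : 0 ≤ W * N * E3 := by positivity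
          gcongr
      _ = _ := by ring
  -- third error
  have hs3 : ‖∑ q ∈ Icc (-(P : ℤ)) P, (gN N ls m q - ((N : ℂ) / (2 * π)) ^ (2 * ls.length) *
        deriv (fun χ => wE N m χ * XN ls N χ) (2 * π * q / N))‖ ≤ W * N ^ 2 * E3 := by
    have hg : ∀ q ∈ Icc (-(P : ℤ)) P, ‖gN N ls m q - ((N : ℂ) / (2 * π)) ^ (2 * ls.length) *
        deriv (fun χ => wE N m χ * XN ls N χ) (2 * π * q / N)‖ ≤ W * N * E3 := by
      intro q hq
      rw [mem_Icc, ← abs_le] at hq
      set x : ℝ := 2 * π * (q : ℝ) / N with hx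
      have hxc : (2 * π * ((q : ℤ) : ℂ) / N : ℂ) = (x : ℂ) := by rw [hx]; push_cast; rfl
      have hqr : |(q : ℝ)| ≤ P := by exact_mod_cast hq
      have hxa : |x| = 2 * π * |(q : ℝ)| / N := by
        rw [hx, abs_div, abs_mul, abs_of_pos (by positivity : (0 : ℝ) < 2 * π), abs_of_pos hN']
      have hx1 : |x| ≤ R / 4 := by
        rw [hxa, div_le_iff₀ hN']
        have h6 : |(q : ℝ)| ≤ R / 4 * N / (2 * π) := by linarith
        rw [le_div_iff₀ (by positivity)] at h6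
        linarith
      unfold gN
      rw [hxc]
      have hfun : (fun χ => wE N m χ * (Tf N ls χ - Tm N ls χ)) = fun χ => wE N m χ * Tf N ls χ -
          ((N : ℂ) / (2 * π)) ^ (2 * ls.length) * (wE N m χ * XN ls N χ) := by
        funext χ
        rw [hKF N ls χ hN2 hls]
        ring
      have hXd : Differentiable ℂ (fun χ => ((N : ℂ) / (2 * π)) ^ (2 * ls.length) *
          (wE N m χ * XN ls N χ)) := by
        have : (fun χ => ((N : ℂ) / (2 * π)) ^ (2 * ls.length) * (wE N m χ * XN ls N χ)) =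
            fun χ => wE N m χ * Tm N ls χ := by
          funext χ
          rw [hKF N ls χ hN2 hls]
          ring
        rw [this]
        exact (wE_diff N m).mul (Tm_diff N ls)
      have hTd : DifferentiableAt ℂ (fun χ => wE N m χ * Tf N ls χ) (x : ℂ) :=
        ((wE_diff N m).mul (Tf_diff N ls)) _
      have hd : deriv (fun χ => wE N m χ * (Tf N ls χ - Tm N ls χ)) (x : ℂ) =
          deriv (fun χ => wE N m χ * Tf N ls χ) (x : ℂ) - ((N : ℂ) / (2 * π)) ^ (2 * ls.length) *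
            deriv (fun χ => wE N m χ * XN ls N χ) (x : ℂ) := by
        rw [hfun, deriv_fun_sub hTd (hXd _)]
        congr 1
        exact deriv_const_mul_field _
      rw [← hd]
      have h7 : ∀ w, ‖w - (x : ℂ)‖ = 1 / (N : ℝ) → ‖wE N m w * (Tf N ls w - Tm N ls w)‖ ≤ W * E1 := by
        intro w hw
        obtain ⟨h1, h2⟩ := near_pt hw
        rw [norm_mul]
        refine mul_le_mul (hw2 x w (by linarith) hw) (F1 w ?_ (h2.trans tτ)) (norm_nonneg _) hW0.le
        have h4 : |w.re| ≤ |x| + 1 / N := by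
          have := abs_sub_abs_le_abs_sub w.re x
          linarith
        linarith
      have h9 := cauchy ((wE_diff N m).mul ((Tf_diff N ls).sub (Tm_diff N ls))) (x : ℂ)
        (one_div_pos.2 hN') h7
      refine h9.trans ?_
      rw [div_div_eq_mul_div, div_one]
      have : W * E1 * N ≤ W * E3 * N := by gcongr
      linarith
    refine (norm_sum_le_of_le _ hg).trans ?_
    rw [sum_const, nsmul_eq_mul]
    have hcard : ((Icc (-(P : ℤ)) P).card : ℝ) ≤ N := by
      rw [Int.card_Icc]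
      have : ((P : ℤ) + 1 - -(P : ℤ)).toNat ≤ N := by omega
      exact_mod_cast this
    calc _ ≤ (N : ℝ) * (W * N * E3) := by
          have : 0 ≤ W * N * E3 := by positivity
          gcongr
      _ = _ := by ring
  refine (norm_add_le _ _).trans ((add_le_add (norm_add_le _ _) le_rfl).trans ?_)
  have : (2 * |(m : ℝ)| * W + W + W) * N ^ 2 * E3 =
    2 * |(m : ℝ)| * W * N ^ 2 * E3 + W * N ^ 2 * E3 + W * N ^ 2 * E3 := by ring
  rw [this]
  linarith

end Pool.Agent.Y833.CB
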